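import Pool.Agent.H48.FreeSub.CanExt

/-!
# Finite types in the canonical extension
-/

namespace Pool.Agent.H48.FreeSub

universe u v

variable {L : Type u} {C : Type v} [Lattice L] [CompleteLattice C]

/-- Ranked finite type for closed elements of `C`. -/
def CTypeN (e : L → C) : ℕ → C → Prop
  | 0, _ => False
  | n + 1, x => IsCl e x ∧ ∃ 𝒱 : Set (Set C), 𝒱.Finite ∧
      (∀ V ∈ 𝒱, V.Finite ∧ V.Nonempty ∧ x ≤ sSup V ∧ ∀ z ∈ V, CTypeN e n z) ∧
      ∀ T : Set C, T.Finite → T.Nonempty → (∀ y ∈ T, IsCl e y) → x ≤ sSup T →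
        (∃ y ∈ T, x ≤ y) ∨ ∃ V ∈ 𝒱, ∀ z ∈ V, ∃ y ∈ T, z ≤ y

omit [Lattice L] in
theorem CTypeN.succ {e : L → C} : ∀ {n : ℕ} {x : C}, CTypeN e n x → CTypeN e (n + 1) x
  | 0, _, h => h.elim
  | n + 1, x, h => by
    obtain ⟨h1, 𝒱, h2, h3, h4⟩ := h
    exact ⟨h1, 𝒱, h2, fun V hV => ⟨(h3 V hV).1, (h3 V hV).2.1, (h3 V hV).2.2.1,
      fun z hz => ((h3 V hV).2.2.2 z hz).succ⟩, h4⟩

omit [Lattice L] in
theorem CTypeN.mono {e : L → C} {n m : ℕ} (hnm : n ≤ m) {x : C} (h : CTypeN e n x) :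
    CTypeN e m x := by
  induction hnm with
  | refl => exact h
  | step _ ih => exact ih.succ

theorem exists_uniform {α : Type*} {P : ℕ → α → Prop} (hP : ∀ n m a, n ≤ m → P n a → P m a)
    {S : Set α} (hS : S.Finite) (h : ∀ a ∈ S, ∃ n, P n a) : ∃ n, ∀ a ∈ S, P n a := by
  induction S, hS using Set.Finite.induction_on with
  | empty => exact ⟨0, by simp⟩
  | @insert a S ha hS ih =>
    obtain ⟨n, hn⟩ := ih (fun b hb => h b (by simp [hb]))
    obtain ⟨m, hm⟩ := h a (by simp)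
    refine ⟨max n m, ?_⟩
    rintro b (rfl | hb)
    · exact hP _ _ _ (le_max_right _ _) hm
    · exact hP _ _ _ (le_max_left _ _) (hn b hb)

theorem GoodExt.finset_inf' {e : L → C} (h : GoodExt e) {x : C} (U : Finset L)
    (hU : U.Nonempty) : x ≤ e (U.inf' hU id) ↔ ∀ u ∈ U, x ≤ e u := by
  induction hU using Finset.Nonempty.cons_induction with
  | singleton a => simp
  | cons a U ha hU ih =>
    rw [Finset.inf'_cons hU, h.map_inf, le_inf_iff, ih]
    simp

theorem GoodExt.finset_sup' {e : L → C} (h : GoodExt e) {x : C} (U : Finset L)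
    (hU : U.Nonempty) : e (U.sup' hU id) ≤ x ↔ ∀ u ∈ U, e u ≤ x := by
  induction hU using Finset.Nonempty.cons_induction with
  | singleton a => simp
  | cons a U ha hU ih =>
    rw [Finset.sup'_cons hU, h.map_sup, sup_le_iff, ih]
    simp

theorem FiniteType.cTypeN {e : L → C} (he : GoodExt e) {F : Set L} (hF : FiniteType F) :
    ∀ x, IsCl e x → (∀ w, x ≤ e w ↔ w ∈ F) → ∃ n, CTypeN e n x := by
  classical
  have hk : ∀ G : Set L, ∃ k : C, IsFilt G → IsCl e k ∧ ∀ w, k ≤ e w ↔ w ∈ G := by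
    intro G
    by_cases hG : IsFilt G
    · obtain ⟨k, hk⟩ := he.exists_closed G hG
      exact ⟨k, fun _ => hk⟩
    · exact ⟨⊤, fun h => (hG h).elim⟩
  choose k hk using hk
  have filt_of : ∀ {G : Set L}, FiniteType G → IsFilt G := by
    intro G hG
    cases hG with
    | mk _ _ h _ _ => exact h
  induction hF with
  | mk F 𝒱 hF h𝒱 hmem ih =>
    intro x hx hxF
    have h1 : ∃ n, ∀ V ∈ 𝒱, ∀ G ∈ V, CTypeN e n (k G) := by
      apply exists_uniform (P := fun n (V : Set (Set L)) => ∀ G ∈ V, CTypeN e n (k G))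
        (fun n m V hnm h G hG => (h G hG).mono hnm) h𝒱.1
      intro V hV
      apply exists_uniform (P := fun n (G : Set L) => CTypeN e n (k G))
        (fun n m V hnm h => h.mono hnm) (h𝒱.2.1 V hV).1
      intro G hG
      have hGf := filt_of (hmem V hV G hG)
      exact ih V hV G hG (k G) (hk G hGf).1 (hk G hGf).2
    obtain ⟨n, hn⟩ := h1
    have hcl : ∀ V ∈ 𝒱, ∀ G ∈ V, IsCl e (k G) ∧ ∀ w, k G ≤ e w ↔ w ∈ G :=
      fun V hV G hG => hk G (filt_of (hmem V hV G hG))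
    refine ⟨n + 1, hx, (fun V => k '' V) '' 𝒱, h𝒱.1.image _, ?_, ?_⟩
    · rintro _ ⟨V, hV, rfl⟩
      obtain ⟨hVf, hVn, hVF⟩ := h𝒱.2.1 V hV
      refine ⟨hVf.image _, hVn.image _, ?_, ?_⟩
      · have hclos : IsCl e (sSup (k '' V)) := by
          apply he.sSup_closed (hVf.image _) (hVn.image _)
          rintro _ ⟨G, hG, rfl⟩
          exact (hcl V hV G hG).1
        apply hclos
        intro w hw
        rw [hxF]
        apply hVF
        intro G hG
        rw [← (hcl V hV G hG).2]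
        exact (le_sSup (Set.mem_image_of_mem k hG)).trans hw
      · rintro _ ⟨G, hG, rfl⟩
        exact hn V hV G hG
    · intro T hTf hTn hTc hxT
      by_contra hcon
      push Not at hcon
      obtain ⟨hc1, hc2⟩ := hcon
      -- witnesses
      have w1 : ∀ y ∈ T, ∃ w, y ≤ e w ∧ w ∉ F := by
        intro y hy
        by_contra hcon
        push Not at hcon
        exact hc1 y hy (hTc y hy x (fun w hw => (hxF w).2 (hcon w hw)))
      have w2 : ∀ V : Set (Set L), ∃ G : Set L, V ∈ 𝒱 → G ∈ V ∧ ∀ y ∈ T, ¬ k G ≤ y := by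
        intro V
        by_cases hV : V ∈ 𝒱
        · obtain ⟨z, ⟨G, hG, rfl⟩, hz⟩ := hc2 (k '' V) ⟨V, hV, rfl⟩
          exact ⟨G, fun _ => ⟨hG, hz⟩⟩
        · exact ⟨∅, fun h => (hV h).elim⟩
      choose G hG using w2
      have w3 : ∀ y ∈ T, ∀ V : Set (Set L), ∃ w, V ∈ 𝒱 → y ≤ e w ∧ w ∉ G V := by
        intro y hy V
        by_cases hV : V ∈ 𝒱
        · have h2 := (hG V hV).2 y hy
          have h3 : ∃ w, y ≤ e w ∧ w ∉ G V := by
            by_contra hcon
            push Not at hcon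
            exact h2 (hTc y hy _ (fun w hw => ((hcl V hV _ (hG V hV).1).2 w).2 (hcon w hw)))
          obtain ⟨w, hw⟩ := h3
          exact ⟨w, fun _ => hw⟩
        · obtain ⟨w, hw⟩ := w1 y hy
          exact ⟨w, fun h => (hV h).elim⟩
      have w4 : ∀ y ∈ T, ∃ u, y ≤ e u ∧ u ∉ F ∧ ∀ V ∈ 𝒱, u ∉ G V := by
        intro y hy
        obtain ⟨w0, hw0, hw0F⟩ := w1 y hy
        choose w hw using w3 y hy
        set U : Finset L := insert w0 (h𝒱.1.toFinset.image w) with hU
        have hUn : U.Nonempty := ⟨w0, by simp [hU]⟩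
        refine ⟨U.inf' hUn id, ?_, ?_, ?_⟩
        · rw [he.finset_inf']
          intro u hu
          rw [hU, Finset.mem_insert, Finset.mem_image] at hu
          rcases hu with rfl | ⟨V, hV, rfl⟩
          · exact hw0
          · exact (hw V (h𝒱.1.mem_toFinset.1 hV)).1
        · intro h
          exact hw0F (hF.1 _ _ h (Finset.inf'_le id (by simp [hU])))
        · intro V hV h
          refine (hw V hV).2 ((filt_of (hmem V hV _ (hG V hV).1)).1 _ _ h
            (Finset.inf'_le id ?_))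
          rw [hU, Finset.mem_insert, Finset.mem_image]
          exact Or.inr ⟨V, h𝒱.1.mem_toFinset.2 hV, rfl⟩
      have w5 : ∀ y : C, ∃ u, y ∈ T → y ≤ e u ∧ u ∉ F ∧ ∀ V ∈ 𝒱, u ∉ G V := by
        intro y
        by_cases hy : y ∈ T
        · obtain ⟨u, hu⟩ := w4 y hy
          exact ⟨u, fun _ => hu⟩
        · obtain ⟨y', hy'⟩ := hTn
          obtain ⟨u, hu⟩ := w4 y' hy'
          exact ⟨u, fun h => (hy h).elim⟩
      choose u hu using w5
      set U : Finset L := hTf.toFinset.image u with hU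
      have hUn : U.Nonempty := by
        obtain ⟨y, hy⟩ := hTn
        exact ⟨u y, by rw [hU, Finset.mem_image]; exact ⟨y, hTf.mem_toFinset.2 hy, rfl⟩⟩
      have hUF : U.sup' hUn id ∈ F := by
        rw [← hxF]
        refine hxT.trans (sSup_le ?_)
        intro y hy
        refine (hu y hy).1.trans (he.mono ?_)
        apply Finset.le_sup' (f := id)
        rw [hU, Finset.mem_image]
        exact ⟨y, hTf.mem_toFinset.2 hy, rfl⟩
      rcases h𝒱.2.2 U hUn hUF with ⟨v, hv, hvF⟩ | ⟨V, hV, hVU⟩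
      · rw [hU, Finset.mem_image] at hv
        obtain ⟨y, hy, rfl⟩ := hv
        exact (hu y (hTf.mem_toFinset.1 hy)).2.1 hvF
      · obtain ⟨v, hv, hvG⟩ := hVU (G V) (hG V hV).1
        rw [hU, Finset.mem_image] at hv
        obtain ⟨y, hy, rfl⟩ := hv
        exact (hu y (hTf.mem_toFinset.1 hy)).2.2 V hV hvG

/-- A finite system of closed elements, closed under join-refinements. -/
structure Sys (e : L → C) (N : Set C) (J : C → Set (Set C)) (rk : C → ℕ) : Prop where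
  fin : N.Finite
  cl : ∀ x ∈ N, IsCl e x
  Jfin : ∀ x ∈ N, (J x).Finite
  Jmem : ∀ x ∈ N, ∀ V ∈ J x, V.Finite ∧ V.Nonempty ∧ x ≤ sSup V ∧ V ⊆ N
  rank : ∀ x ∈ N, ∀ V ∈ J x, ∀ z ∈ V, rk z < rk x
  ref : ∀ x ∈ N, ∀ T : Set C, T.Finite → T.Nonempty → (∀ y ∈ T, IsCl e y) → x ≤ sSup T →
    (∃ y ∈ T, x ≤ y) ∨ ∃ V ∈ J x, ∀ z ∈ V, ∃ y ∈ T, z ≤ y

/-- A finite system of open elements, closed under meet-refinements. -/
structure SysO (e : L → C) (M : Set C) (Q : C → Set (Set C)) (rk : C → ℕ) : Prop where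
  fin : M.Finite
  op : ∀ x ∈ M, IsOp e x
  Qfin : ∀ x ∈ M, (Q x).Finite
  Qmem : ∀ x ∈ M, ∀ V ∈ Q x, V.Finite ∧ V.Nonempty ∧ sInf V ≤ x ∧ V ⊆ M
  rank : ∀ x ∈ M, ∀ V ∈ Q x, ∀ z ∈ V, rk z < rk x
  ref : ∀ x ∈ M, ∀ T : Set C, T.Finite → T.Nonempty → (∀ y ∈ T, IsOp e y) → sInf T ≤ x →
    (∃ y ∈ T, y ≤ x) ∨ ∃ V ∈ Q x, ∀ z ∈ V, ∃ y ∈ T, y ≤ z

/-- Reachability. -/
inductive Reach (J : C → Set (Set C)) : C → C → Prop
  | refl (x : C) : Reach J x x
  | step {x z w : C} {V : Set C} (hV : V ∈ J x) (hz : z ∈ V) (h : Reach J z w) : Reach J x w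

omit [CompleteLattice C] in
theorem Reach.tail {J : C → Set (Set C)} {x y z : C} {V : Set C} (h : Reach J x y)
    (hV : V ∈ J y) (hz : z ∈ V) : Reach J x z := by
  induction h with
  | refl x => exact .step hV hz (.refl z)
  | step hV' hz' _ ih => exact .step hV' hz' (ih hV)

theorem exists_sys {e : L → C} (he : GoodExt e) (hL : PrincipalFiniteType L) :
    ∃ (J : C → Set (Set C)) (rk : C → ℕ), ∀ b : L, ∃ N, e b ∈ N ∧ Sys e N J rk := by
  classical
  let ok : C → Prop := fun x => ∃ n, CTypeN e n x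
  let rk : C → ℕ := fun x => if h : ∃ n, CTypeN e n x then Nat.find h else 0
  have hrk : ∀ n x, CTypeN e n x → rk x ≤ n := by
    intro n x h
    have h' : ∃ n, CTypeN e n x := ⟨n, h⟩
    simp only [rk, dif_pos h']
    exact Nat.find_le h
  have hJ : ∀ x, ∃ 𝒱 : Set (Set C), ok x → IsCl e x ∧ 𝒱.Finite ∧
      (∀ V ∈ 𝒱, V.Finite ∧ V.Nonempty ∧ x ≤ sSup V ∧ ∀ z ∈ V, ok z ∧ rk z < rk x) ∧
      ∀ T : Set C, T.Finite → T.Nonempty → (∀ y ∈ T, IsCl e y) → x ≤ sSup T →
        (∃ y ∈ T, x ≤ y) ∨ ∃ V ∈ 𝒱, ∀ z ∈ V, ∃ y ∈ T, z ≤ y := by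
    intro x
    by_cases h : ∃ n, CTypeN e n x
    · have h1 : CTypeN e (rk x) x := by
        simp only [rk, dif_pos h]
        exact Nat.find_spec h
      rcases hn : rk x with _ | n
      · rw [hn] at h1
        exact h1.elim
      · rw [hn] at h1
        obtain ⟨h2, 𝒱, h3, h4, h5⟩ := h1
        refine ⟨𝒱, fun _ => ⟨h2, h3, fun V hV => ⟨(h4 V hV).1, (h4 V hV).2.1, (h4 V hV).2.2.1,
          fun z hz => ⟨⟨n, (h4 V hV).2.2.2 z hz⟩, ?_⟩⟩, h5⟩⟩
        have := hrk n z ((h4 V hV).2.2.2 z hz)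
        omega
    · exact ⟨∅, fun h' => (h h').elim⟩
  choose J hJ using hJ
  have hfin : ∀ n x, ok x → rk x ≤ n → {w | Reach J x w}.Finite := by
    intro n
    induction n with
    | zero =>
      intro x hx hr
      apply (Set.finite_singleton x).subset
      intro w hw
      cases hw with
      | refl => rfl
      | @step _ z _ V hV hz h =>
        have := (((hJ x hx).2.2.1 V hV).2.2.2 z hz).2
        omega
    | succ n ih =>
      intro x hx hr
      have h1 : {w | Reach J x w} ⊆ insert x (⋃ V ∈ J x, ⋃ z ∈ V, {w | Reach J z w}) := by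
        intro w hw
        cases hw with
        | refl => exact Or.inl rfl
        | @step _ z _ V hV hz h =>
          right
          simp only [Set.mem_iUnion]
          exact ⟨V, hV, z, hz, h⟩
      refine Set.Finite.subset (Set.Finite.insert _ ?_) h1
      apply (hJ x hx).2.1.biUnion
      intro V hV
      have hV' := (hJ x hx).2.2.1 V hV
      apply hV'.1.biUnion
      intro z hz
      have := hV'.2.2.2 z hz
      exact ih z this.1 (by omega)
  have hok : ∀ x w, Reach J x w → ok x → ok w := by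
    intro x w h
    induction h with
    | refl => exact id
    | @step x z w V hV hz _ ih => exact fun hx => ih (((hJ x hx).2.2.1 V hV).2.2.2 z hz).1
  refine ⟨J, rk, fun b => ⟨{w | Reach J (e b) w}, .refl _, ?_⟩⟩
  have hb : ok (e b) := by
    apply (hL b).cTypeN he (e b) (GoodExt.isCl_coe b)
    intro w
    exact he.le_iff b w
  exact
    { fin := hfin _ _ hb le_rfl
      cl := fun x hx => (hJ x (hok _ _ hx hb)).1
      Jfin := fun x hx => (hJ x (hok _ _ hx hb)).2.1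
      Jmem := fun x hx V hV => by
        have := (hJ x (hok _ _ hx hb)).2.2.1 V hV
        exact ⟨this.1, this.2.1, this.2.2.1, fun z hz => Reach.tail hx hV hz⟩
      rank := fun x hx V hV z hz => (((hJ x (hok _ _ hx hb)).2.2.1 V hV).2.2.2 z hz).2
      ref := fun x hx => (hJ x (hok _ _ hx hb)).2.2.2 }

theorem exists_sysO {e : L → C} (he : GoodExt e) (hL : PrincipalFiniteType (Lᵒᵈ)) :
    ∃ (Q : C → Set (Set C)) (rk : C → ℕ), ∀ b : L, ∃ M, e b ∈ M ∧ SysO e M Q rk := by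
  obtain ⟨J, rk, h⟩ := exists_sys he.dual hL
  refine ⟨fun x => J (OrderDual.toDual x), fun x => rk (OrderDual.toDual x), fun b => ?_⟩
  obtain ⟨N, hb, hN⟩ := h (OrderDual.toDual b)
  refine ⟨N, hb, ?_⟩
  exact
    { fin := hN.fin
      op := hN.cl
      Qfin := hN.Jfin
      Qmem := hN.Jmem
      rank := hN.rank
      ref := hN.ref }

/-- The consequence of Whitman's condition in the canonical extension. -/
theorem whitman_ext {e : L → C} (he : GoodExt e) (hW : WhitmanW L) {S T : Set C}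
    (hSf : S.Finite) (hSn : S.Nonempty) (hS : ∀ x ∈ S, IsOp e x)
    (hTf : T.Finite) (hTn : T.Nonempty) (hT : ∀ x ∈ T, IsCl e x) (hle : sInf S ≤ sSup T) :
    (∃ j ∈ S, j ≤ sSup T) ∨ ∃ g ∈ T, sInf S ≤ g := by
  classical
  by_contra hcon
  push Not at hcon
  obtain ⟨hc1, hc2⟩ := hcon
  have hTc : IsCl e (sSup T) := he.sSup_closed hTf hTn hT
  have hSo : IsOp e (sInf S) := he.sInf_open hSf hSn hS
  obtain ⟨j0, hj0⟩ := hSn
  obtain ⟨g0, hg0⟩ := hTn
  have a1 : ∀ j ∈ S, ∃ p : L × L, e p.1 ≤ j ∧ sSup T ≤ e p.2 ∧ ¬ p.1 ≤ p.2 := by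
    intro j hj
    by_contra hcon
    push Not at hcon
    apply hc1 j hj
    apply hS j hj
    intro u hu
    apply hTc
    intro w hw
    exact he.mono (hcon (u, w) hu hw)
  have a2 : ∀ g ∈ T, ∃ p : L × L, g ≤ e p.2 ∧ e p.1 ≤ sInf S ∧ ¬ p.1 ≤ p.2 := by
    intro g hg
    by_contra hcon
    push Not at hcon
    apply hc2 g hg
    apply hT g hg
    intro w hw
    apply hSo
    intro u hu
    exact he.mono (hcon (u, w) hw hu)
  have b1 : ∀ j : C, ∃ p : L × L, j ∈ S → e p.1 ≤ j ∧ sSup T ≤ e p.2 ∧ ¬ p.1 ≤ p.2 := by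
    intro j
    by_cases hj : j ∈ S
    · obtain ⟨p, hp⟩ := a1 j hj
      exact ⟨p, fun _ => hp⟩
    · obtain ⟨p, _⟩ := a1 j0 hj0
      exact ⟨p, fun h => (hj h).elim⟩
  have b2 : ∀ g : C, ∃ p : L × L, g ∈ T → g ≤ e p.2 ∧ e p.1 ≤ sInf S ∧ ¬ p.1 ≤ p.2 := by
    intro j
    by_cases hj : j ∈ T
    · obtain ⟨p, hp⟩ := a2 j hj
      exact ⟨p, fun _ => hp⟩
    · obtain ⟨p, _⟩ := a2 g0 hg0
      exact ⟨p, fun h => (hj h).elim⟩
  choose p hp using b1
  choose q hq using b2
  set W0 : Finset L := hSf.toFinset.image (fun j => (p j).2) with hW0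
  have hW0n : W0.Nonempty := ⟨(p j0).2, by
    rw [hW0, Finset.mem_image]; exact ⟨j0, hSf.mem_toFinset.2 hj0, rfl⟩⟩
  set U0 : Finset L := hTf.toFinset.image (fun g => (q g).1) with hU0
  have hU0n : U0.Nonempty := ⟨(q g0).1, by
    rw [hU0, Finset.mem_image]; exact ⟨g0, hTf.mem_toFinset.2 hg0, rfl⟩⟩
  set w0 := W0.inf' hW0n id with hw0
  set u0 := U0.sup' hU0n id with hu0
  have hw0T : sSup T ≤ e w0 := by
    rw [hw0, he.finset_inf']
    intro w hw
    rw [hW0, Finset.mem_image] at hw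
    obtain ⟨j, hj, rfl⟩ := hw
    exact (hp j (hSf.mem_toFinset.1 hj)).2.1
  have hu0S : e u0 ≤ sInf S := by
    rw [hu0, he.finset_sup']
    intro w hw
    rw [hU0, Finset.mem_image] at hw
    obtain ⟨j, hj, rfl⟩ := hw
    exact (hq j (hTf.mem_toFinset.1 hj)).2.1
  set S' : Finset L := hSf.toFinset.image (fun j => (p j).1 ⊔ u0) with hS'
  have hS'n : S'.Nonempty := ⟨(p j0).1 ⊔ u0, by
    rw [hS', Finset.mem_image]; exact ⟨j0, hSf.mem_toFinset.2 hj0, rfl⟩⟩
  set T' : Finset L := hTf.toFinset.image (fun g => (q g).2 ⊓ w0) with hT'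
  have hT'n : T'.Nonempty := ⟨(q g0).2 ⊓ w0, by
    rw [hT', Finset.mem_image]; exact ⟨g0, hTf.mem_toFinset.2 hg0, rfl⟩⟩
  have h1 : e (S'.inf' hS'n id) ≤ sInf S := by
    apply le_sInf
    intro j hj
    have : e ((p j).1 ⊔ u0) ≤ j := by
      rw [he.map_sup]
      exact sup_le (hp j hj).1 (hu0S.trans (sInf_le hj))
    refine le_trans (he.mono ?_) this
    apply Finset.inf'_le id
    rw [hS', Finset.mem_image]
    exact ⟨j, hSf.mem_toFinset.2 hj, rfl⟩
  have h2 : sSup T ≤ e (T'.sup' hT'n id) := by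
    apply sSup_le
    intro g hg
    have : g ≤ e ((q g).2 ⊓ w0) := by
      rw [he.map_inf]
      exact le_inf (hq g hg).1 ((le_sSup hg).trans hw0T)
    refine le_trans this (he.mono ?_)
    apply Finset.le_sup' (f := id)
    rw [hT', Finset.mem_image]
    exact ⟨g, hTf.mem_toFinset.2 hg, rfl⟩
  have h3 : S'.inf' hS'n id ≤ T'.sup' hT'n id := (he.le_iff _ _).1 (h1.trans (hle.trans h2))
  rcases hW S' T' hS'n hT'n h3 with ⟨a, ha, ha'⟩ | ⟨b, hb, hb'⟩
  · rw [hS', Finset.mem_image] at ha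
    obtain ⟨j, hj, rfl⟩ := ha
    have hj' := hSf.mem_toFinset.1 hj
    apply (hp j hj').2.2
    have h4 : T'.sup' hT'n id ≤ w0 := by
      apply Finset.sup'_le
      intro b hb
      rw [hT', Finset.mem_image] at hb
      obtain ⟨g, _, rfl⟩ := hb
      exact inf_le_right
    have h5 : w0 ≤ (p j).2 := by
      apply Finset.inf'_le id
      rw [hW0, Finset.mem_image]
      exact ⟨j, hj, rfl⟩
    exact le_sup_left.trans (ha'.trans (h4.trans h5))
  · rw [hT', Finset.mem_image] at hb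
    obtain ⟨g, hg, rfl⟩ := hb
    have hg' := hTf.mem_toFinset.1 hg
    apply (hq g hg').2.2
    have h4 : u0 ≤ S'.inf' hS'n id := by
      apply Finset.le_inf'
      intro b hb
      rw [hS', Finset.mem_image] at hb
      obtain ⟨g, _, rfl⟩ := hb
      exact le_sup_right
    have h5 : (q g).1 ≤ u0 := by
      apply Finset.le_sup' (f := id)
      rw [hU0, Finset.mem_image]
      exact ⟨g, hg, rfl⟩
    exact h5.trans (h4.trans (hb'.trans inf_le_left))

end Pool.Agent.H48.FreeSub
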