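import Pool.Agent.H48.FreeSub.Defs

/-!
# The canonical extension of a lattice
-/

namespace Pool.Agent.H48.FreeSub

universe u v

section Abstract

variable {L : Type u} {C : Type v} [Lattice L] [CompleteLattice C]

/-- Closed elements: meets of elements of `L`. -/
def IsCl (e : L → C) (x : C) : Prop := ∀ z, (∀ w, x ≤ e w → z ≤ e w) → z ≤ x

/-- Open elements: joins of elements of `L`. -/
def IsOp (e : L → C) (x : C) : Prop := ∀ z, (∀ u, e u ≤ x → e u ≤ z) → x ≤ z

/-- The properties of the canonical extension that we use. -/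
structure GoodExt (e : L → C) : Prop where
  le_iff : ∀ a b, e a ≤ e b ↔ a ≤ b
  compact : ∀ x y, IsCl e x → IsOp e y → x ≤ y → ∃ c, x ≤ e c ∧ e c ≤ y
  sup_closed : ∀ x y, IsCl e x → IsCl e y → IsCl e (x ⊔ y)
  inf_open : ∀ x y, IsOp e x → IsOp e y → IsOp e (x ⊓ y)
  exists_closed : ∀ F : Set L, IsFilt F → ∃ x, IsCl e x ∧ ∀ w, x ≤ e w ↔ w ∈ F
  exists_open : ∀ I : Set L, IsFilt (L := Lᵒᵈ) (OrderDual.ofDual ⁻¹' I) →
    ∃ y, IsOp e y ∧ ∀ u, e u ≤ y ↔ u ∈ I

/-- The dual embedding. -/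
def edual (e : L → C) : Lᵒᵈ → Cᵒᵈ := fun a => OrderDual.toDual (e (OrderDual.ofDual a))

theorem GoodExt.dual {e : L → C} (h : GoodExt e) : GoodExt (edual e) where
  le_iff a b := h.le_iff _ _
  compact x y hx hy hxy := by
    obtain ⟨c, h1, h2⟩ := h.compact (OrderDual.ofDual y) (OrderDual.ofDual x) hy hx hxy
    exact ⟨OrderDual.toDual c, h2, h1⟩
  sup_closed x y hx hy := h.inf_open _ _ hx hy
  inf_open x y hx hy := h.sup_closed _ _ hx hy
  exists_closed F hF := h.exists_open (OrderDual.toDual ⁻¹' F) hF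
  exists_open I hI := h.exists_closed (OrderDual.toDual ⁻¹' I) hI

variable {e : L → C}

omit [Lattice L] in
theorem GoodExt.isCl_coe (a : L) : IsCl e (e a) := fun _ hz => hz a le_rfl

omit [Lattice L] in
theorem GoodExt.isOp_coe (a : L) : IsOp e (e a) := fun _ hz => hz a le_rfl

theorem GoodExt.mono (h : GoodExt e) {a b : L} (hab : a ≤ b) : e a ≤ e b := (h.le_iff a b).2 hab

theorem GoodExt.map_sup (h : GoodExt e) (a b : L) : e (a ⊔ b) = e a ⊔ e b := by
  apply le_antisymm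
  · apply h.sup_closed _ _ (GoodExt.isCl_coe a) (GoodExt.isCl_coe b)
    intro w hw
    have h1 := (h.le_iff _ _).1 (le_sup_left.trans hw)
    have h2 := (h.le_iff _ _).1 (le_sup_right.trans hw)
    exact h.mono (sup_le h1 h2)
  · exact sup_le (h.mono le_sup_left) (h.mono le_sup_right)

theorem GoodExt.map_inf (h : GoodExt e) (a b : L) : e (a ⊓ b) = e a ⊓ e b := by
  apply le_antisymm
  · exact le_inf (h.mono inf_le_left) (h.mono inf_le_right)
  · apply h.inf_open _ _ (GoodExt.isOp_coe a) (GoodExt.isOp_coe b)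
    intro w hw
    have h1 := (h.le_iff _ _).1 (hw.trans inf_le_left)
    have h2 := (h.le_iff _ _).1 (hw.trans inf_le_right)
    exact h.mono (le_inf h1 h2)

theorem GoodExt.sSup_closed (h : GoodExt e) {T : Set C} (hT : T.Finite) (hne : T.Nonempty)
    (hcl : ∀ y ∈ T, IsCl e y) : IsCl e (sSup T) := by
  induction T, hT using Set.Finite.induction_on with
  | empty => exact absurd hne (by simp)
  | @insert a T ha hT ih =>
    rcases T.eq_empty_or_nonempty with rfl | hne'
    · simpa using hcl a (by simp)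
    · rw [sSup_insert]
      exact h.sup_closed _ _ (hcl a (by simp)) (ih hne' (fun y hy => hcl y (by simp [hy])))

theorem GoodExt.sInf_open (h : GoodExt e) {T : Set C} (hT : T.Finite) (hne : T.Nonempty)
    (hcl : ∀ y ∈ T, IsOp e y) : IsOp e (sInf T) :=
  GoodExt.sSup_closed (e := edual e) h.dual (T := OrderDual.ofDual ⁻¹' T) hT hne hcl

theorem GoodExt.filt (h : GoodExt e) (x : C) : IsFilt {w | x ≤ e w} := by
  constructor
  · intro a b ha hab
    exact le_trans (show x ≤ e a from ha) (h.mono hab)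
  · intro a b ha hb
    change x ≤ e (a ⊓ b)
    rw [h.map_inf]
    exact le_inf ha hb

end Abstract

section Concrete

variable (L : Type u) [Lattice L]

/-- The type of filters. -/
abbrev Fil : Type u := {F : Set L // IsFilt F}

/-- The type of ideals. -/
abbrev Idl : Type u := {I : Set L // IsFilt (L := Lᵒᵈ) (OrderDual.ofDual ⁻¹' I)}

/-- The relation of meeting. -/
def meets (F : Fil L) (I : Idl L) : Prop := ∃ c, c ∈ F.1 ∧ c ∈ I.1

variable {L}

/-- Closed concept. -/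
def kk (F : Fil L) : Concept (Fil L) (Idl L) (meets L) := Concept.ofObject _ F

/-- Open concept. -/
def oo (I : Idl L) : Concept (Fil L) (Idl L) (meets L) := Concept.ofAttribute _ I

theorem kk_le_oo {F : Fil L} {I : Idl L} : kk F ≤ oo I ↔ meets L F I :=
  Concept.ofObject_le_ofAttribute_iff

theorem le_of_kk {x y : Concept (Fil L) (Idl L) (meets L)} (h : ∀ F, kk F ≤ x → kk F ≤ y) :
    x ≤ y := by
  rw [← Concept.extent_subset_extent_iff]
  intro F hF
  have h1 : kk F ≤ x := by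
    rw [kk, Concept.ofObject, Concept.ofObjects_le_iff]
    simpa using hF
  have h2 := h F h1
  rw [kk, Concept.ofObject, Concept.ofObjects_le_iff] at h2
  exact h2 rfl

theorem le_of_oo {x y : Concept (Fil L) (Idl L) (meets L)} (h : ∀ I, y ≤ oo I → x ≤ oo I) :
    x ≤ y := by
  rw [← Concept.intent_subset_intent_iff]
  intro F hF
  have h1 : y ≤ oo F := by
    rw [oo, Concept.ofAttribute, Concept.le_ofAttributes_iff]
    simpa using hF
  have h2 := h F h1
  rw [oo, Concept.ofAttribute, Concept.le_ofAttributes_iff] at h2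
  exact h2 rfl

/-- Principal filters. -/
def pf (a : L) : Fil L := ⟨Set.Ici a, fun _ _ h1 h2 => le_trans h1 h2, fun _ _ h1 h2 => le_inf h1 h2⟩

/-- Principal ideals. -/
def pi (a : L) : Idl L :=
  ⟨Set.Iic a, fun _ _ h1 h2 => le_trans h2 h1, fun _ _ h1 h2 => sup_le (α := L) h1 h2⟩

theorem meets_pi {F : Fil L} {a : L} : meets L F (pi a) ↔ a ∈ F.1 := by
  constructor
  · rintro ⟨c, h1, h2⟩
    exact F.2.1 c a h1 h2
  · intro h
    exact ⟨a, h, le_refl a⟩

theorem pf_meets {I : Idl L} {a : L} : meets L (pf a) I ↔ a ∈ I.1 := by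
  constructor
  · rintro ⟨c, h1, h2⟩
    exact I.2.1 c a h2 h1
  · intro h
    exact ⟨a, le_refl a, h⟩

theorem kk_eq_oo (a : L) : kk (pf a) = oo (pi a) := by
  apply le_antisymm
  · rw [kk_le_oo]
    exact ⟨a, le_refl a, le_refl a⟩
  · apply le_of_kk
    intro F hF
    rw [kk_le_oo, meets_pi] at hF
    apply le_of_oo
    intro I hI
    rw [kk_le_oo, pf_meets] at hI
    rw [kk_le_oo]
    exact ⟨a, hF, hI⟩

/-- The embedding. -/
def ee (a : L) : Concept (Fil L) (Idl L) (meets L) := oo (pi a)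

theorem kk_le_ee {F : Fil L} {a : L} : kk F ≤ ee a ↔ a ∈ F.1 := by
  rw [ee, kk_le_oo, meets_pi]

theorem ee_le_oo {I : Idl L} {a : L} : ee a ≤ oo I ↔ a ∈ I.1 := by
  rw [ee, ← kk_eq_oo, kk_le_oo, pf_meets]

theorem ee_le_ee {a b : L} : ee a ≤ ee b ↔ a ≤ b := by
  rw [ee, ← kk_eq_oo, kk_le_ee]
  exact Iff.rfl

theorem kk_isCl (F : Fil L) : IsCl ee (kk F) := by
  intro z hz
  apply le_of_oo
  intro I hI
  rw [kk_le_oo] at hI
  obtain ⟨c, h1, h2⟩ := hI
  exact (hz c (kk_le_ee.2 h1)).trans (ee_le_oo.2 h2)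

theorem oo_isOp (I : Idl L) : IsOp ee (oo I) := by
  intro z hz
  apply le_of_kk
  intro F hF
  rw [kk_le_oo] at hF
  obtain ⟨c, h1, h2⟩ := hF
  exact (kk_le_ee.2 h1).trans (hz c (ee_le_oo.2 h2))

theorem ee_inf {x : Concept (Fil L) (Idl L) (meets L)} {a b : L} (ha : x ≤ ee a) (hb : x ≤ ee b) :
    x ≤ ee (a ⊓ b) := by
  apply le_of_kk
  intro F hF
  exact kk_le_ee.2 (F.2.2 a b (kk_le_ee.1 (hF.trans ha)) (kk_le_ee.1 (hF.trans hb)))

theorem ee_sup {x : Concept (Fil L) (Idl L) (meets L)} {a b : L} (ha : ee a ≤ x) (hb : ee b ≤ x) :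
    ee (a ⊔ b) ≤ x := by
  apply le_of_oo
  intro F hF
  have h1 : a ∈ F.1 := ee_le_oo.1 (ha.trans hF)
  have h2 : b ∈ F.1 := ee_le_oo.1 (hb.trans hF)
  exact ee_le_oo.2 (F.2.2 a b h1 h2)

theorem exists_kk {x : Concept (Fil L) (Idl L) (meets L)} (hx : IsCl ee x) : ∃ F, x = kk F := by
  refine ⟨⟨{w | x ≤ ee w}, ?_, ?_⟩, ?_⟩
  · intro a b ha hab
    exact le_trans (show x ≤ ee a from ha) (ee_le_ee.2 hab)
  · intro a b ha hb
    exact ee_inf ha hb
  · apply le_antisymm
    · apply kk_isCl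
      intro w hw
      exact kk_le_ee.1 hw
    · apply hx
      intro w hw
      exact kk_le_ee.2 hw

theorem exists_oo {x : Concept (Fil L) (Idl L) (meets L)} (hx : IsOp ee x) : ∃ F, x = oo F := by
  refine ⟨⟨{w | ee w ≤ x}, ?_, ?_⟩, ?_⟩
  · intro a b ha hab
    have h1 : ee (L := L) (OrderDual.ofDual b) ≤ ee (L := L) (OrderDual.ofDual a) :=
      ee_le_ee.2 hab
    exact h1.trans ha
  · intro a b ha hb
    exact ee_sup (L := L) (a := OrderDual.ofDual a) (b := OrderDual.ofDual b) ha hb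
  · apply le_antisymm
    · apply hx
      intro w hw
      exact ee_le_oo.2 hw
    · apply oo_isOp
      intro w hw
      exact ee_le_oo.1 hw

theorem goodExt_ee : GoodExt (ee : L → Concept (Fil L) (Idl L) (meets L)) where
  le_iff _ _ := ee_le_ee
  compact x y hx hy hxy := by
    obtain ⟨F, rfl⟩ := exists_kk hx
    obtain ⟨I, rfl⟩ := exists_oo hy
    obtain ⟨c, h1, h2⟩ := kk_le_oo.1 hxy
    exact ⟨c, kk_le_ee.2 h1, ee_le_oo.2 h2⟩
  sup_closed x y hx hy := by
    obtain ⟨F, rfl⟩ := exists_kk hx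
    obtain ⟨G, rfl⟩ := exists_kk hy
    intro z hz
    apply le_of_oo
    intro I hI
    obtain ⟨c, h1, h2⟩ := kk_le_oo.1 (le_sup_left.trans hI)
    obtain ⟨d, h3, h4⟩ := kk_le_oo.1 (le_sup_right.trans hI)
    have h5 : z ≤ ee (c ⊔ d) := by
      apply hz
      apply sup_le
      · exact kk_le_ee.2 (F.2.1 c _ h1 le_sup_left)
      · exact kk_le_ee.2 (G.2.1 d _ h3 le_sup_right)
    exact h5.trans (ee_le_oo.2 (I.2.2 c d h2 h4))
  inf_open x y hx hy := by
    obtain ⟨F, rfl⟩ := exists_oo hx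
    obtain ⟨G, rfl⟩ := exists_oo hy
    intro z hz
    apply le_of_kk
    intro I hI
    obtain ⟨c, h1, h2⟩ := kk_le_oo.1 (hI.trans inf_le_left)
    obtain ⟨d, h3, h4⟩ := kk_le_oo.1 (hI.trans inf_le_right)
    have h5 : ee (c ⊓ d) ≤ z := by
      apply hz
      apply le_inf
      · exact ee_le_oo.2 (F.2.1 c _ h2 (show c ⊓ d ≤ c from inf_le_left))
      · exact ee_le_oo.2 (G.2.1 d _ h4 (show c ⊓ d ≤ d from inf_le_right))
    exact (kk_le_ee.2 (I.2.2 c d h1 h3)).trans h5
  exists_closed F hF := ⟨kk ⟨F, hF⟩, kk_isCl _, fun _ => kk_le_ee⟩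
  exists_open I hI := ⟨oo ⟨I, hI⟩, oo_isOp _, fun _ => ee_le_oo⟩

end Concrete

theorem exists_goodExt (L : Type u) [Lattice L] :
    ∃ (C : Type u) (_ : CompleteLattice C) (e : L → C), GoodExt e :=
  ⟨_, inferInstance, ee, goodExt_ee⟩

end Pool.Agent.H48.FreeSub
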