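import Mathlib

/-!
# Sublattices of free lattices: the definitions used in the statement

`IsFreeLattice`, `EmbedsInFree`, Whitman's condition `WhitmanW`, and the intrinsic condition
`FiniteTypeCond` on the principal filters of a lattice.
-/

namespace Pool.Agent.H48.FreeSub

universe u

/-- `ι : X → F` exhibits the lattice `F` as a free lattice on the set `X`: `F` is generated by the
image of `ι`, and every map from `X` to a lattice `M` extends to a lattice homomorphism `F → M`. -/
def IsFreeLattice {X F : Type u} [Lattice F] (ι : X → F) : Prop :=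
  (∀ S : Sublattice F, (∀ x, ι x ∈ S) → S = ⊤) ∧
    ∀ (M : Type u) [Lattice M] (f : X → M), ∃ φ : LatticeHom F M, ∀ x, φ (ι x) = f x

/-- `L` is isomorphic to a sublattice of some free lattice. -/
def EmbedsInFree (L : Type u) [Lattice L] : Prop :=
  ∃ (X F : Type u) (_ : Lattice F) (ι : X → F), IsFreeLattice ι ∧
    ∃ φ : LatticeHom L F, Function.Injective φ

/-- Whitman's condition (W), for finite nonempty meets and joins. -/
def WhitmanW (L : Type u) [Lattice L] : Prop :=
  ∀ (S T : Finset L) (hS : S.Nonempty) (hT : T.Nonempty), S.inf' hS id ≤ T.sup' hT id →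
    (∃ a ∈ S, a ≤ T.sup' hT id) ∨ (∃ b ∈ T, S.inf' hS id ≤ b)

/-- Filters: up-closed subsets closed under binary meets (the empty set is allowed). -/
def IsFilt {L : Type u} [Lattice L] (F : Set L) : Prop :=
  (∀ a b, a ∈ F → a ≤ b → b ∈ F) ∧ ∀ a b, a ∈ F → b ∈ F → a ⊓ b ∈ F

/-- `𝒱` is a finite set of finite nonempty sets `V` of subsets of `L`, with `⋂ V ⊆ F` for each
`V ∈ 𝒱`, such that whenever a finite join `⋁ U` lies in `F`, either some `u ∈ U` lies in `F`, or
there is `V ∈ 𝒱` such that every `G ∈ V` contains some `u ∈ U`. -/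
def Resolves {L : Type u} [Lattice L] (F : Set L) (𝒱 : Set (Set (Set L))) : Prop :=
  𝒱.Finite ∧ (∀ V ∈ 𝒱, V.Finite ∧ V.Nonempty ∧ ⋂₀ V ⊆ F) ∧
    ∀ (U : Finset L) (hU : U.Nonempty), U.sup' hU id ∈ F →
      (∃ u ∈ U, u ∈ F) ∨ ∃ V ∈ 𝒱, ∀ G ∈ V, ∃ u ∈ U, u ∈ G

/-- Filters of finite type: the smallest class of filters `F` such that `F` belongs to the class
as soon as it is resolved by a finite family `𝒱` all of whose filters belong to the class. -/
inductive FiniteType {L : Type u} [Lattice L] : Set L → Prop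
  | mk (F : Set L) (𝒱 : Set (Set (Set L))) (hF : IsFilt F) (h𝒱 : Resolves F 𝒱)
      (h : ∀ V ∈ 𝒱, ∀ G ∈ V, FiniteType G) : FiniteType F

/-- Every principal filter is of finite type. -/
def PrincipalFiniteType (L : Type u) [Lattice L] : Prop :=
  ∀ a : L, FiniteType (Set.Ici a)

end Pool.Agent.H48.FreeSub
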