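import Pool.Agent.H48.FreeSub.Defs

/-!
# Construction of free lattices (Whitman's cut-free order on terms)
-/

namespace Pool.Agent.H48.FreeSub

universe u

/-- Lattice terms. -/
inductive Tm (X : Type u) : Type u
  | var : X → Tm X
  | sup : Tm X → Tm X → Tm X
  | inf : Tm X → Tm X → Tm X

/-- Whitman's cut-free order. -/
inductive Wle {X : Type u} : Tm X → Tm X → Prop
  | var (x) : Wle (.var x) (.var x)
  | sup_le {s1 s2 t} : Wle s1 t → Wle s2 t → Wle (.sup s1 s2) t
  | le_inf {s t1 t2} : Wle s t1 → Wle s t2 → Wle s (.inf t1 t2)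
  | inf_le_left {s1 s2 t} : Wle s1 t → Wle (.inf s1 s2) t
  | inf_le_right {s1 s2 t} : Wle s2 t → Wle (.inf s1 s2) t
  | le_sup_left {s t1 t2} : Wle s t1 → Wle s (.sup t1 t2)
  | le_sup_right {s t1 t2} : Wle s t2 → Wle s (.sup t1 t2)

namespace Tm

variable {X : Type u}

theorem Wle_refl : ∀ t : Tm X, Wle t t
  | var x => .var x
  | sup s t => .sup_le (.le_sup_left (Wle_refl s)) (.le_sup_right (Wle_refl t))
  | inf s t => .le_inf (.inf_le_left (Wle_refl s)) (.inf_le_right (Wle_refl t))

/-- Size of a term. -/
def size : Tm X → ℕ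
  | var _ => 1
  | sup s t => size s + size t + 1
  | inf s t => size s + size t + 1

theorem Wle_trans_aux : ∀ (n : ℕ) (s t u : Tm X), size s + size t + size u ≤ n →
    Wle s t → Wle t u → Wle s u := by
  intro n
  induction n with
  | zero =>
    intro s t u h
    exfalso
    have : 0 < size s := by cases s <;> simp [size]
    omega
  | succ n ih =>
    intro s t u h h1 h2
    cases h1 with
    | var x => exact h2
    | sup_le ha hb =>
      simp only [size] at h
      exact .sup_le (ih _ _ _ (by omega) ha h2) (ih _ _ _ (by omega) hb h2)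
    | inf_le_left ha =>
      simp only [size] at h
      exact .inf_le_left (ih _ _ _ (by omega) ha h2)
    | inf_le_right ha =>
      simp only [size] at h
      exact .inf_le_right (ih _ _ _ (by omega) ha h2)
    | le_inf ha hb =>
      cases h2 with
      | le_inf hc hd =>
        simp only [size] at h
        exact .le_inf (ih _ _ _ (by simp only [size]; omega) (.le_inf ha hb) hc)
          (ih _ _ _ (by simp only [size]; omega) (.le_inf ha hb) hd)
      | inf_le_left hc =>
        simp only [size] at h
        exact ih _ _ _ (by omega) ha hc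
      | inf_le_right hc =>
        simp only [size] at h
        exact ih _ _ _ (by omega) hb hc
      | le_sup_left hc =>
        simp only [size] at h
        exact .le_sup_left (ih _ _ _ (by simp only [size]; omega) (.le_inf ha hb) hc)
      | le_sup_right hc =>
        simp only [size] at h
        exact .le_sup_right (ih _ _ _ (by simp only [size]; omega) (.le_inf ha hb) hc)
    | le_sup_left ha =>
      cases h2 with
      | sup_le hc hd =>
        simp only [size] at h
        exact ih _ _ _ (by omega) ha hc
      | le_inf hc hd =>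
        simp only [size] at h
        exact .le_inf (ih _ _ _ (by simp only [size]; omega) (.le_sup_left ha) hc)
          (ih _ _ _ (by simp only [size]; omega) (.le_sup_left ha) hd)
      | le_sup_left hc =>
        simp only [size] at h
        exact .le_sup_left (ih _ _ _ (by simp only [size]; omega) (.le_sup_left ha) hc)
      | le_sup_right hc =>
        simp only [size] at h
        exact .le_sup_right (ih _ _ _ (by simp only [size]; omega) (.le_sup_left ha) hc)
    | le_sup_right ha =>
      cases h2 with
      | sup_le hc hd =>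
        simp only [size] at h
        exact ih _ _ _ (by omega) ha hd
      | le_inf hc hd =>
        simp only [size] at h
        exact .le_inf (ih _ _ _ (by simp only [size]; omega) (.le_sup_right ha) hc)
          (ih _ _ _ (by simp only [size]; omega) (.le_sup_right ha) hd)
      | le_sup_left hc =>
        simp only [size] at h
        exact .le_sup_left (ih _ _ _ (by simp only [size]; omega) (.le_sup_right ha) hc)
      | le_sup_right hc =>
        simp only [size] at h
        exact .le_sup_right (ih _ _ _ (by simp only [size]; omega) (.le_sup_right ha) hc)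

theorem Wle_trans {s t u : Tm X} (h1 : Wle s t) (h2 : Wle t u) : Wle s u :=
  Wle_trans_aux _ s t u le_rfl h1 h2

end Tm

variable (X : Type u)

/-- The preorder on terms. -/
def tmSetoid : Setoid (Tm X) where
  r s t := Wle s t ∧ Wle t s
  iseqv :=
    ⟨fun t => ⟨Tm.Wle_refl t, Tm.Wle_refl t⟩, fun h => ⟨h.2, h.1⟩,
      fun h1 h2 => ⟨Tm.Wle_trans h1.1 h2.1, Tm.Wle_trans h2.2 h1.2⟩⟩

/-- The free lattice on `X`. -/
def FL : Type u := Quotient (tmSetoid X)

variable {X}

/-- The class of a term. -/
def FL.cl (t : Tm X) : FL X := Quotient.mk (tmSetoid X) t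

/-- The order. -/
def FL.le (a b : FL X) : Prop :=
  Quotient.lift₂ (s₁ := tmSetoid X) (s₂ := tmSetoid X) (fun s t => Wle s t)
    (fun _ _ _ _ h1 h2 => propext
      ⟨fun h => Tm.Wle_trans h1.2 (Tm.Wle_trans h h2.1),
       fun h => Tm.Wle_trans h1.1 (Tm.Wle_trans h h2.2)⟩) a b

/-- Joins. -/
def FL.sup (a b : FL X) : FL X :=
  Quotient.map₂ (sa := tmSetoid X) (sb := tmSetoid X) (sc := tmSetoid X) Tm.sup
    (fun _ _ h1 _ _ h2 =>
      ⟨.sup_le (.le_sup_left h1.1) (.le_sup_right h2.1),
       .sup_le (.le_sup_left h1.2) (.le_sup_right h2.2)⟩) a b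

/-- Meets. -/
def FL.inf (a b : FL X) : FL X :=
  Quotient.map₂ (sa := tmSetoid X) (sb := tmSetoid X) (sc := tmSetoid X) Tm.inf
    (fun _ _ h1 _ _ h2 =>
      ⟨.le_inf (.inf_le_left h1.1) (.inf_le_right h2.1),
       .le_inf (.inf_le_left h1.2) (.inf_le_right h2.2)⟩) a b

instance : Lattice (FL X) where
  le := FL.le
  le_refl a := by
    induction a using Quotient.inductionOn with
    | _ t => exact Tm.Wle_refl t
  le_trans a b c := by
    induction a using Quotient.inductionOn with
    | _ s =>
    induction b using Quotient.inductionOn with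
    | _ t =>
    induction c using Quotient.inductionOn with
    | _ u => exact fun h1 h2 => Tm.Wle_trans h1 h2
  le_antisymm a b := by
    induction a using Quotient.inductionOn with
    | _ s =>
    induction b using Quotient.inductionOn with
    | _ t => exact fun h1 h2 => Quotient.sound (s := tmSetoid X) ⟨h1, h2⟩
  sup := FL.sup
  inf := FL.inf
  le_sup_left a b := by
    induction a using Quotient.inductionOn with
    | _ s =>
    induction b using Quotient.inductionOn with
    | _ t => exact Wle.le_sup_left (Tm.Wle_refl _)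
  le_sup_right a b := by
    induction a using Quotient.inductionOn with
    | _ s =>
    induction b using Quotient.inductionOn with
    | _ t => exact Wle.le_sup_right (Tm.Wle_refl _)
  sup_le a b c := by
    induction a using Quotient.inductionOn with
    | _ s =>
    induction b using Quotient.inductionOn with
    | _ t =>
    induction c using Quotient.inductionOn with
    | _ u => exact fun h1 h2 => Wle.sup_le h1 h2
  inf_le_left a b := by
    induction a using Quotient.inductionOn with
    | _ s =>
    induction b using Quotient.inductionOn with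
    | _ t => exact Wle.inf_le_left (Tm.Wle_refl _)
  inf_le_right a b := by
    induction a using Quotient.inductionOn with
    | _ s =>
    induction b using Quotient.inductionOn with
    | _ t => exact Wle.inf_le_right (Tm.Wle_refl _)
  le_inf a b c := by
    induction a using Quotient.inductionOn with
    | _ s =>
    induction b using Quotient.inductionOn with
    | _ t =>
    induction c using Quotient.inductionOn with
    | _ u => exact fun h1 h2 => Wle.le_inf h1 h2

theorem FL.cl_le {s t : Tm X} : FL.cl s ≤ FL.cl t ↔ Wle s t := Iff.rfl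

theorem FL.cl_sup (s t : Tm X) : FL.cl (.sup s t) = FL.cl s ⊔ FL.cl t := rfl

theorem FL.cl_inf (s t : Tm X) : FL.cl (.inf s t) = FL.cl s ⊓ FL.cl t := rfl

theorem FL.exists_cl (a : FL X) : ∃ t, FL.cl t = a := by
  induction a using Quotient.inductionOn with
  | _ s => exact ⟨s, rfl⟩

/-- The generators. -/
def FL.gen (x : X) : FL X := FL.cl (.var x)

/-- Whitman's condition in the free lattice. -/
theorem FL.whitman {a b c d : FL X} (h : a ⊓ b ≤ c ⊔ d) :
    a ≤ c ⊔ d ∨ b ≤ c ⊔ d ∨ a ⊓ b ≤ c ∨ a ⊓ b ≤ d := by
  obtain ⟨s, rfl⟩ := FL.exists_cl a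
  obtain ⟨t, rfl⟩ := FL.exists_cl b
  obtain ⟨u, rfl⟩ := FL.exists_cl c
  obtain ⟨v, rfl⟩ := FL.exists_cl d
  rw [← FL.cl_inf, ← FL.cl_sup, FL.cl_le] at h
  rw [← FL.cl_inf, ← FL.cl_sup, FL.cl_le, FL.cl_le, FL.cl_le, FL.cl_le]
  cases h with
  | inf_le_left h => exact Or.inl h
  | inf_le_right h => exact Or.inr (Or.inl h)
  | le_sup_left h => exact Or.inr (Or.inr (Or.inl h))
  | le_sup_right h => exact Or.inr (Or.inr (Or.inr h))

/-- Generators are join prime. -/
theorem FL.gen_prime {x : X} {c d : FL X} (h : FL.gen x ≤ c ⊔ d) :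
    FL.gen x ≤ c ∨ FL.gen x ≤ d := by
  obtain ⟨u, rfl⟩ := FL.exists_cl c
  obtain ⟨v, rfl⟩ := FL.exists_cl d
  rw [FL.gen, ← FL.cl_sup, FL.cl_le] at h
  rw [FL.gen, FL.cl_le, FL.cl_le]
  cases h with
  | le_sup_left h => exact Or.inl h
  | le_sup_right h => exact Or.inr h

/-- Evaluation of terms. -/
def Tm.eval {M : Type*} [Lattice M] (f : X → M) : Tm X → M
  | .var x => f x
  | .sup s t => Tm.eval f s ⊔ Tm.eval f t
  | .inf s t => Tm.eval f s ⊓ Tm.eval f t

theorem Tm.eval_mono {M : Type*} [Lattice M] (f : X → M) {s t : Tm X} (h : Wle s t) :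
    Tm.eval f s ≤ Tm.eval f t := by
  induction h with
  | var x => exact le_rfl
  | sup_le _ _ ih1 ih2 => exact sup_le ih1 ih2
  | le_inf _ _ ih1 ih2 => exact le_inf ih1 ih2
  | inf_le_left _ ih => exact inf_le_left.trans ih
  | inf_le_right _ ih => exact inf_le_right.trans ih
  | le_sup_left _ ih => exact ih.trans le_sup_left
  | le_sup_right _ ih => exact ih.trans le_sup_right

/-- The universal homomorphism. -/
def FL.lift {M : Type*} [Lattice M] (f : X → M) : LatticeHom (FL X) M where
  toFun a := Quotient.lift (s := tmSetoid X) (fun t => Tm.eval f t)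
    (fun _ _ h => le_antisymm (Tm.eval_mono f h.1) (Tm.eval_mono f h.2)) a
  map_sup' a b := by
    obtain ⟨s, rfl⟩ := FL.exists_cl a
    obtain ⟨t, rfl⟩ := FL.exists_cl b
    rfl
  map_inf' a b := by
    obtain ⟨s, rfl⟩ := FL.exists_cl a
    obtain ⟨t, rfl⟩ := FL.exists_cl b
    rfl

theorem FL.lift_gen {M : Type*} [Lattice M] (f : X → M) (x : X) :
    FL.lift f (FL.gen x) = f x := rfl

theorem FL.isFree : IsFreeLattice (FL.gen : X → FL X) := by
  refine ⟨fun S hS => ?_, fun M _ f => ⟨FL.lift f, fun x => rfl⟩⟩
  rw [eq_top_iff]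
  intro a _
  obtain ⟨t, rfl⟩ := FL.exists_cl a
  induction t with
  | var x => exact hS x
  | sup s t ihs iht => exact S.sup_mem (ihs trivial) (iht trivial)
  | inf s t ihs iht => exact S.inf_mem (ihs trivial) (iht trivial)

/-- Every free lattice on `X` embeds in `FL X`. -/
theorem exists_embedding_FL {F : Type u} [Lattice F] (ι : X → F) (h : IsFreeLattice ι) :
    ∃ ψ : LatticeHom F (FL X), Function.Injective ψ := by
  obtain ⟨ψ, hψ⟩ := h.2 (FL X) FL.gen
  refine ⟨ψ, ?_⟩
  let θ : LatticeHom (FL X) F := FL.lift ι
  have key : ∀ a, θ (ψ a) = a := by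
    let S : Sublattice F :=
      { carrier := {a | θ (ψ a) = a}
        supClosed' := by
          intro a ha b hb
          simp only [Set.mem_setOf_eq] at ha hb ⊢
          rw [map_sup, map_sup, ha, hb]
        infClosed' := by
          intro a ha b hb
          simp only [Set.mem_setOf_eq] at ha hb ⊢
          rw [map_inf, map_inf, ha, hb] }
    have hS : S = ⊤ := h.1 S (fun x => by
      change θ (ψ (ι x)) = ι x
      rw [hψ]
      rfl)
    intro a
    have : a ∈ S := by rw [hS]; trivial
    exact this
  exact Function.LeftInverse.injective key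

theorem embedsInFree_iff {L : Type u} [Lattice L] :
    EmbedsInFree L ↔ ∃ (X : Type u) (φ : LatticeHom L (FL X)), Function.Injective φ := by
  constructor
  · rintro ⟨X, F, _, ι, h, φ, hφ⟩
    obtain ⟨ψ, hψ⟩ := exists_embedding_FL ι h
    exact ⟨X, ψ.comp φ, hψ.comp hφ⟩
  · rintro ⟨X, φ, hφ⟩
    exact ⟨X, FL X, inferInstance, FL.gen, FL.isFree, φ, hφ⟩

end Pool.Agent.H48.FreeSub
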