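import Pool.Agent.H48.FreeSub.FreeLat

/-!
# Necessity: sublattices of free lattices satisfy the conditions
-/

namespace Pool.Agent.H48.FreeSub

universe u

variable {L : Type u} [Lattice L]

/-- Duality. -/
theorem IsFreeLattice.dual {X F : Type u} [Lattice F] {ι : X → F} (h : IsFreeLattice ι) :
    IsFreeLattice (fun x => OrderDual.toDual (ι x) : X → Fᵒᵈ) := by
  constructor
  · intro S hS
    let S' : Sublattice F :=
      { carrier := {a | OrderDual.toDual a ∈ S}
        supClosed' := fun a ha b hb => S.inf_mem ha hb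
        infClosed' := fun a ha b hb => S.sup_mem ha hb }
    have h' : S' = ⊤ := h.1 S' hS
    rw [eq_top_iff]
    intro a _
    have : OrderDual.ofDual a ∈ S' := by rw [h']; trivial
    exact this
  · intro M _ f
    obtain ⟨φ, hφ⟩ := h.2 (Mᵒᵈ) (fun x => OrderDual.toDual (f x))
    exact ⟨{ toFun := fun a => OrderDual.ofDual (φ (OrderDual.ofDual a))
             map_sup' := fun a b => φ.map_inf' (OrderDual.ofDual a) (OrderDual.ofDual b)
             map_inf' := fun a b => φ.map_sup' (OrderDual.ofDual a) (OrderDual.ofDual b) },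
      fun x => hφ x⟩

theorem EmbedsInFree.dual (h : EmbedsInFree L) : EmbedsInFree (Lᵒᵈ) := by
  obtain ⟨X, F, _, ι, hι, φ, hφ⟩ := h
  exact ⟨X, Fᵒᵈ, inferInstance, _, hι.dual,
    { toFun := fun a => OrderDual.toDual (φ (OrderDual.ofDual a))
      map_sup' := fun a b => φ.map_inf' (OrderDual.ofDual a) (OrderDual.ofDual b)
      map_inf' := fun a b => φ.map_sup' (OrderDual.ofDual a) (OrderDual.ofDual b) },
    fun a b hab => hφ hab⟩

/-- The binary form of Whitman's condition. -/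
def WhitmanB (L : Type u) [Lattice L] : Prop :=
  ∀ a b c d : L, a ⊓ b ≤ c ⊔ d → a ≤ c ⊔ d ∨ b ≤ c ⊔ d ∨ a ⊓ b ≤ c ∨ a ⊓ b ≤ d

theorem WhitmanB.aux (h : WhitmanB L) (a v : L) (T : Finset L) (hT : T.Nonempty) :
    a ⊓ v ≤ T.sup' hT id → a ≤ T.sup' hT id ∨ v ≤ T.sup' hT id ∨ ∃ b ∈ T, a ⊓ v ≤ b := by
  induction hT using Finset.Nonempty.cons_induction with
  | singleton b =>
    intro hle
    exact Or.inr (Or.inr ⟨b, by simp, by simpa using hle⟩)
  | cons b T hb hT ih =>
    intro hle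
    rw [Finset.sup'_cons hT] at hle
    simp only [id] at hle
    rcases h _ _ _ _ hle with h1 | h1 | h1 | h1
    · left
      rw [Finset.sup'_cons hT]
      exact h1
    · right; left
      rw [Finset.sup'_cons hT]
      exact h1
    · right; right
      exact ⟨b, by simp, h1⟩
    · rcases ih h1 with h2 | h2 | ⟨c, hc, h2⟩
      · left
        rw [Finset.sup'_cons hT]
        exact h2.trans le_sup_right
      · right; left
        rw [Finset.sup'_cons hT]
        exact h2.trans le_sup_right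
      · right; right
        exact ⟨c, by simp [hc], h2⟩

theorem WhitmanB.whitmanW (h : WhitmanB L) : WhitmanW L := by
  intro S T hS hT
  induction hS using Finset.Nonempty.cons_induction with
  | singleton a =>
    intro hle
    exact Or.inl ⟨a, by simp, by simpa using hle⟩
  | cons a S ha hS ih =>
    intro hle
    rw [Finset.inf'_cons hS] at hle
    simp only [id] at hle
    rcases h.aux _ _ T hT hle with h1 | h1 | ⟨b, hb, h1⟩
    · exact Or.inl ⟨a, by simp, h1⟩
    · rcases ih h1 with ⟨c, hc, h2⟩ | ⟨b, hb, h2⟩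
      · exact Or.inl ⟨c, by simp [hc], h2⟩
      · refine Or.inr ⟨b, hb, ?_⟩
        rw [Finset.inf'_cons hS]
        exact inf_le_right.trans h2
    · refine Or.inr ⟨b, hb, ?_⟩
      rw [Finset.inf'_cons hS]
      exact h1

theorem whitmanB_of_embedding {X : Type u} (φ : LatticeHom L (FL X)) (hφ : Function.Injective φ) :
    WhitmanB L := by
  have hle : ∀ a b, φ a ≤ φ b ↔ a ≤ b := fun a b => by
    constructor
    · intro h
      have : φ (a ⊔ b) = φ b := by rw [map_sup]; exact sup_eq_right.2 h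
      exact sup_eq_right.1 (hφ this)
    · intro h
      exact OrderHomClass.mono φ h
  intro a b c d h
  have h' : φ a ⊓ φ b ≤ φ c ⊔ φ d := by
    rw [← map_inf, ← map_sup]
    exact (hle _ _).2 h
  have := FL.whitman h'
  rw [← map_inf, ← map_sup, hle, hle, hle, hle] at this
  exact this

/-- The filter of elements of `L` above an element of the free lattice. -/
def above {X : Type u} (φ : LatticeHom L (FL X)) (t : FL X) : Set L := {b | t ≤ φ b}

theorem above_isFilt {X : Type u} (φ : LatticeHom L (FL X)) (t : FL X) : IsFilt (above φ t) := by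
  constructor
  · intro a b ha hab
    exact le_trans (show t ≤ φ a from ha) (OrderHomClass.mono φ hab)
  · intro a b ha hb
    change t ≤ φ (a ⊓ b)
    rw [map_inf]
    exact le_inf ha hb

theorem FiniteType.resolves {F : Set L} (h : FiniteType F) :
    ∃ 𝒱, IsFilt F ∧ Resolves F 𝒱 ∧ ∀ V ∈ 𝒱, ∀ G ∈ V, FiniteType G := by
  cases h with
  | mk F 𝒱 hF h𝒱 h => exact ⟨𝒱, hF, h𝒱, h⟩

theorem map_finset_sup'_le_aux {X : Type u} (φ : LatticeHom L (FL X)) (x : X) (U : Finset L)
    (hU : U.Nonempty) : FL.gen x ≤ φ (U.sup' hU id) → ∃ u ∈ U, FL.gen x ≤ φ u := by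
  induction hU using Finset.Nonempty.cons_induction with
  | singleton a => intro h; exact ⟨a, by simp, by simpa using h⟩
  | cons a U ha hU ih =>
    intro h
    rw [Finset.sup'_cons hU, map_sup] at h
    rcases FL.gen_prime h with h1 | h1
    · exact ⟨a, by simp, h1⟩
    · obtain ⟨u, hu, h2⟩ := ih h1
      exact ⟨u, by simp [hu], h2⟩

theorem inf_le_sup'_aux {X : Type u} (φ : LatticeHom L (FL X)) (s t : FL X) (U : Finset L)
    (hU : U.Nonempty) : s ⊓ t ≤ φ (U.sup' hU id) →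
      s ≤ φ (U.sup' hU id) ∨ t ≤ φ (U.sup' hU id) ∨ ∃ u ∈ U, s ⊓ t ≤ φ u := by
  induction hU using Finset.Nonempty.cons_induction with
  | singleton a => intro h; exact Or.inr (Or.inr ⟨a, by simp, by simpa using h⟩)
  | cons a U ha hU ih =>
    intro h
    rw [Finset.sup'_cons hU, map_sup] at h
    rw [Finset.sup'_cons hU, map_sup]
    rcases FL.whitman h with h1 | h1 | h1 | h1
    · exact Or.inl h1
    · exact Or.inr (Or.inl h1)
    · exact Or.inr (Or.inr ⟨a, by simp, h1⟩)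
    · rcases ih h1 with h2 | h2 | ⟨u, hu, h2⟩
      · exact Or.inl (h2.trans le_sup_right)
      · exact Or.inr (Or.inl (h2.trans le_sup_right))
      · exact Or.inr (Or.inr ⟨u, by simp [hu], h2⟩)

theorem above_finiteType {X : Type u} (φ : LatticeHom L (FL X)) (t : Tm X) :
    FiniteType (above φ (FL.cl t)) := by
  induction t with
  | var x =>
    refine ⟨_, ∅, above_isFilt φ _, ⟨Set.finite_empty, by simp, ?_⟩, by simp⟩
    intro U hU h
    exact Or.inl (map_finset_sup'_le_aux φ x U hU h)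
  | sup s t ihs iht =>
    obtain ⟨𝒱₁, hF₁, h₁, h₁'⟩ := ihs.resolves
    obtain ⟨𝒱₂, hF₂, h₂, h₂'⟩ := iht.resolves
    set F₁ := above φ (FL.cl s) with hF₁def
    set F₂ := above φ (FL.cl t) with hF₂def
    have hFeq : ∀ b, b ∈ above φ (FL.cl (.sup s t)) ↔ b ∈ F₁ ∧ b ∈ F₂ := by
      intro b
      change FL.cl s ⊔ FL.cl t ≤ φ b ↔ _
      rw [sup_le_iff]
      exact Iff.rfl
    refine ⟨_, (fun p : Set (Set L) × Set (Set L) => p.1 ∪ p.2) ''
      ((insert {F₁} 𝒱₁) ×ˢ (insert {F₂} 𝒱₂)), above_isFilt φ _, ⟨?_, ?_, ?_⟩, ?_⟩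
    · exact ((h₁.1.insert _).prod (h₂.1.insert _)).image _
    · rintro _ ⟨⟨V₁, V₂⟩, ⟨hV₁, hV₂⟩, rfl⟩
      have a1 : V₁.Finite ∧ V₁.Nonempty ∧ ⋂₀ V₁ ⊆ F₁ := by
        rcases hV₁ with rfl | hV₁
        · simp
        · exact h₁.2.1 _ hV₁
      have a2 : V₂.Finite ∧ V₂.Nonempty ∧ ⋂₀ V₂ ⊆ F₂ := by
        rcases hV₂ with rfl | hV₂
        · simp
        · exact h₂.2.1 _ hV₂
      refine ⟨a1.1.union a2.1, a1.2.1.inl, ?_⟩
      intro b hb
      rw [hFeq]
      refine ⟨a1.2.2 ?_, a2.2.2 ?_⟩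
      · intro G hG
        exact hb G (Or.inl hG)
      · intro G hG
        exact hb G (Or.inr hG)
    · intro U hU hUF
      right
      rw [hFeq] at hUF
      have a1 : ∃ V₁ ∈ insert {F₁} 𝒱₁, ∀ G ∈ V₁, ∃ u ∈ U, u ∈ G := by
        rcases h₁.2.2 U hU hUF.1 with h | ⟨V, hV, h⟩
        · exact ⟨{F₁}, by simp, by simpa using h⟩
        · exact ⟨V, by simp [hV], h⟩
      have a2 : ∃ V₂ ∈ insert {F₂} 𝒱₂, ∀ G ∈ V₂, ∃ u ∈ U, u ∈ G := by
        rcases h₂.2.2 U hU hUF.2 with h | ⟨V, hV, h⟩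
        · exact ⟨{F₂}, by simp, by simpa using h⟩
        · exact ⟨V, by simp [hV], h⟩
      obtain ⟨V₁, hV₁, hu₁⟩ := a1
      obtain ⟨V₂, hV₂, hu₂⟩ := a2
      refine ⟨V₁ ∪ V₂, ⟨(V₁, V₂), ⟨hV₁, hV₂⟩, rfl⟩, ?_⟩
      rintro G (hG | hG)
      · exact hu₁ G hG
      · exact hu₂ G hG
    · rintro _ ⟨⟨V₁, V₂⟩, ⟨hV₁, hV₂⟩, rfl⟩ G (hG | hG)
      · rcases hV₁ with rfl | hV₁
        · rw [hG]; exact ihs
        · exact h₁' _ hV₁ _ hG
      · rcases hV₂ with rfl | hV₂
        · rw [hG]; exact iht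
        · exact h₂' _ hV₂ _ hG
  | inf s t ihs iht =>
    obtain ⟨𝒱₁, hF₁, h₁, h₁'⟩ := ihs.resolves
    obtain ⟨𝒱₂, hF₂, h₂, h₂'⟩ := iht.resolves
    have hsub₁ : above φ (FL.cl s) ⊆ above φ (FL.cl (.inf s t)) := fun b hb => by
      change FL.cl s ⊓ FL.cl t ≤ φ b
      exact inf_le_left.trans hb
    have hsub₂ : above φ (FL.cl t) ⊆ above φ (FL.cl (.inf s t)) := fun b hb => by
      change FL.cl s ⊓ FL.cl t ≤ φ b
      exact inf_le_right.trans hb
    refine ⟨_, 𝒱₁ ∪ 𝒱₂, above_isFilt φ _, ⟨h₁.1.union h₂.1, ?_, ?_⟩, ?_⟩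
    · rintro V (hV | hV)
      · have := h₁.2.1 V hV
        exact ⟨this.1, this.2.1, this.2.2.trans hsub₁⟩
      · have := h₂.2.1 V hV
        exact ⟨this.1, this.2.1, this.2.2.trans hsub₂⟩
    · intro U hU hUF
      rcases inf_le_sup'_aux φ (FL.cl s) (FL.cl t) U hU hUF with h | h | ⟨u, hu, h⟩
      · rcases h₁.2.2 U hU h with ⟨u, hu, h'⟩ | ⟨V, hV, h'⟩
        · exact Or.inl ⟨u, hu, hsub₁ h'⟩
        · exact Or.inr ⟨V, Or.inl hV, h'⟩
      · rcases h₂.2.2 U hU h with ⟨u, hu, h'⟩ | ⟨V, hV, h'⟩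
        · exact Or.inl ⟨u, hu, hsub₂ h'⟩
        · exact Or.inr ⟨V, Or.inr hV, h'⟩
      · exact Or.inl ⟨u, hu, h⟩
    · rintro V (hV | hV) G hG
      · exact h₁' V hV G hG
      · exact h₂' V hV G hG

theorem principalFiniteType_of_embeds (h : EmbedsInFree L) : PrincipalFiniteType L := by
  obtain ⟨X, φ, hφ⟩ := embedsInFree_iff.1 h
  intro a
  obtain ⟨t, ht⟩ := FL.exists_cl (φ a)
  have : above φ (FL.cl t) = Set.Ici a := by
    ext b
    change FL.cl t ≤ φ b ↔ a ≤ b
    rw [ht]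
    constructor
    · intro h
      have : φ (a ⊔ b) = φ b := by rw [map_sup]; exact sup_eq_right.2 h
      exact sup_eq_right.1 (hφ this)
    · intro h
      exact OrderHomClass.mono φ h
  rw [← this]
  exact above_finiteType φ t

/-- Necessity of the three conditions. -/
theorem necessity (h : EmbedsInFree L) :
    WhitmanW L ∧ PrincipalFiniteType L ∧ PrincipalFiniteType (Lᵒᵈ) := by
  refine ⟨?_, principalFiniteType_of_embeds h, principalFiniteType_of_embeds h.dual⟩
  obtain ⟨X, φ, hφ⟩ := embedsInFree_iff.1 h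
  exact (whitmanB_of_embedding φ hφ).whitmanW

end Pool.Agent.H48.FreeSub
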