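import Pool.Agent.H48.FreeSub.CTypes

/-!
# One stage of the construction
-/

namespace Pool.Agent.H48.FreeSub

universe u v w

section FinSup

variable {K : Type w} [Lattice K] [Nonempty K]

open Classical in
/-- Join of a finite nonempty set. -/
noncomputable def bsup (A : Set K) : K :=
  if h : A.Finite ∧ A.Nonempty then h.1.toFinset.sup' (by simpa using h.2) id
  else Classical.arbitrary K

open Classical in
/-- Meet of a finite nonempty set. -/
noncomputable def binf (A : Set K) : K :=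
  if h : A.Finite ∧ A.Nonempty then h.1.toFinset.inf' (by simpa using h.2) id
  else Classical.arbitrary K

theorem le_bsup {A : Set K} (hA : A.Finite) {x : K} (hx : x ∈ A) : x ≤ bsup A := by
  have h : A.Finite ∧ A.Nonempty := ⟨hA, x, hx⟩
  rw [bsup, dif_pos h]
  exact Finset.le_sup' (f := id) (h.1.mem_toFinset.2 hx)

theorem bsup_le {A : Set K} (hA : A.Finite) (hn : A.Nonempty) {c : K} (h : ∀ x ∈ A, x ≤ c) :
    bsup A ≤ c := by
  have h' : A.Finite ∧ A.Nonempty := ⟨hA, hn⟩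
  rw [bsup, dif_pos h']
  exact Finset.sup'_le _ _ (fun x hx => h x (h'.1.mem_toFinset.1 hx))

theorem binf_le {A : Set K} (hA : A.Finite) {x : K} (hx : x ∈ A) : binf A ≤ x := by
  have h : A.Finite ∧ A.Nonempty := ⟨hA, x, hx⟩
  rw [binf, dif_pos h]
  exact Finset.inf'_le id (h.1.mem_toFinset.2 hx)

theorem le_binf {A : Set K} (hA : A.Finite) (hn : A.Nonempty) {c : K} (h : ∀ x ∈ A, c ≤ x) :
    c ≤ binf A := by
  have h' : A.Finite ∧ A.Nonempty := ⟨hA, hn⟩
  rw [binf, dif_pos h']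
  exact Finset.le_inf' _ _ (fun x hx => h x (h'.1.mem_toFinset.1 hx))

theorem map_bsup_le {C : Type v} [Lattice C] (f : LatticeHom K C) {A : Set K} (hA : A.Finite)
    (hn : A.Nonempty) {c : C} (h : ∀ x ∈ A, f x ≤ c) : f (bsup A) ≤ c := by
  have h' : A.Finite ∧ A.Nonempty := ⟨hA, hn⟩
  rw [bsup, dif_pos h', map_finset_sup']
  exact Finset.sup'_le _ _ (fun x hx => h x (h'.1.mem_toFinset.1 hx))

theorem le_map_binf {C : Type v} [Lattice C] (f : LatticeHom K C) {A : Set K} (hA : A.Finite)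
    (hn : A.Nonempty) {c : C} (h : ∀ x ∈ A, c ≤ f x) : c ≤ f (binf A) := by
  have h' : A.Finite ∧ A.Nonempty := ⟨hA, hn⟩
  rw [binf, dif_pos h', map_finset_inf']
  exact Finset.le_inf' _ _ (fun x hx => h x (h'.1.mem_toFinset.1 hx))

theorem bsup_image_mono {ι : Type*} {f g : ι → K} {V : Set ι} (hV : V.Finite)
    (hn : V.Nonempty) (h : ∀ i ∈ V, f i ≤ g i) : bsup (f '' V) ≤ bsup (g '' V) := by
  apply bsup_le (hV.image _) (hn.image _)
  rintro _ ⟨i, hi, rfl⟩
  exact (h i hi).trans (le_bsup (hV.image _) ⟨i, hi, rfl⟩)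

theorem binf_image_mono {ι : Type*} {f g : ι → K} {V : Set ι} (hV : V.Finite)
    (hn : V.Nonempty) (h : ∀ i ∈ V, f i ≤ g i) : binf (f '' V) ≤ binf (g '' V) := by
  apply le_binf (hV.image _) (hn.image _)
  rintro _ ⟨i, hi, rfl⟩
  exact (binf_le (hV.image _) ⟨i, hi, rfl⟩).trans (h i hi)

end FinSup

variable {L : Type u} {C : Type v} [Lattice L] [CompleteLattice C]
variable {K : Type w} [Lattice K] [Nonempty K]

/-- A system of closed elements with compatible values. -/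
structure CCompat (e : L → C) (N : Set C) (J : C → Set (Set C)) (rk : C → ℕ) (g : C → K) :
    Prop where
  sys : Sys e N J rk
  val : ∀ x ∈ N, ∀ V ∈ J x, g x ≤ bsup (g '' V)

/-- A system of open elements with compatible values. -/
structure OCompat (e : L → C) (M : Set C) (Q : C → Set (Set C)) (rk : C → ℕ) (g : C → K) :
    Prop where
  sys : SysO e M Q rk
  val : ∀ x ∈ M, ∀ V ∈ Q x, binf (g '' V) ≤ g x

omit [Lattice L] in
theorem CCompat.le_join {e : L → C} {N : Set C} {J : C → Set (Set C)} {rk : C → ℕ} {w : C → K}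
    (h : CCompat e N J rk w) {V : Set C} (hf : V.Finite) (hne : V.Nonempty)
    (hcl : ∀ y ∈ V, IsCl e y) {g : C → K} (hg : ∀ j ∈ V, ∀ q ∈ N, q ≤ j → w q ≤ g j) {q : C}
    (hq : q ∈ N) (hle : q ≤ sSup V) : w q ≤ bsup (g '' V) := by
  rcases h.sys.ref q hq V hf hne hcl hle with ⟨y, hy, hqy⟩ | ⟨W, hW, hWV⟩
  · exact (hg y hy q hq hqy).trans (le_bsup (hf.image _) ⟨y, hy, rfl⟩)
  · refine (h.val q hq W hW).trans ?_
    obtain ⟨hWf, hWn, _, hWN⟩ := h.sys.Jmem q hq W hW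
    apply bsup_le (hWf.image _) (hWn.image _)
    rintro _ ⟨z, hz, rfl⟩
    obtain ⟨y, hy, hzy⟩ := hWV z hz
    exact (hg y hy z (hWN hz) hzy).trans (le_bsup (hf.image _) ⟨y, hy, rfl⟩)

omit [Lattice L] in
theorem OCompat.meet_le {e : L → C} {M : Set C} {Q : C → Set (Set C)} {rk : C → ℕ} {w : C → K}
    (h : OCompat e M Q rk w) {V : Set C} (hf : V.Finite) (hne : V.Nonempty)
    (hop : ∀ y ∈ V, IsOp e y) {g : C → K} (hg : ∀ j ∈ V, ∀ q ∈ M, j ≤ q → g j ≤ w q) {q : C}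
    (hq : q ∈ M) (hle : sInf V ≤ q) : binf (g '' V) ≤ w q := by
  rcases h.sys.ref q hq V hf hne hop hle with ⟨y, hy, hqy⟩ | ⟨W, hW, hWV⟩
  · exact (binf_le (hf.image _) ⟨y, hy, rfl⟩).trans (hg y hy q hq hqy)
  · refine le_trans ?_ (h.val q hq W hW)
    obtain ⟨hWf, hWn, _, hWN⟩ := h.sys.Qmem q hq W hW
    apply le_binf (hWf.image _) (hWn.image _)
    rintro _ ⟨z, hz, rfl⟩
    obtain ⟨y, hy, hzy⟩ := hWV z hz
    exact (binf_le (hf.image _) ⟨y, hy, rfl⟩).trans (hg y hy z (hWN hz) hzy)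

/-- The meet-completion at open elements. -/
noncomputable def mo (s : C → K) (Q : C → Set (Set C)) (rk : C → ℕ) (j : C) : K :=
  bsup (insert (s j) {k | ∃ V ∈ Q j, k = binf {y | ∃ z ∈ V, ∃ _ : rk z < rk j, y = mo s Q rk z}})
termination_by rk j

/-- The join-completion at closed elements. -/
noncomputable def po (m : C → K) (J : C → Set (Set C)) (rk : C → ℕ) (j : C) : K :=
  binf (insert (m j) {k | ∃ V ∈ J j, k = bsup {y | ∃ z ∈ V, ∃ _ : rk z < rk j, y = po m J rk z}})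
termination_by rk j

/-- The hypotheses of one stage. -/
structure StageHyp (e : L → C) (N M : Set C) (J Q : C → Set (Set C)) (rkJ rkQ : C → ℕ)
    (s : C → K) : Prop where
  sysN : Sys e N J rkJ
  sysM : SysO e M Q rkQ
  K3 : ∀ S T : Set C, S.Finite → S.Nonempty → S ⊆ M → T.Finite → T.Nonempty → T ⊆ N →
    sInf S ≤ sSup T → (∃ j ∈ S, j ≤ sSup T) ∨ ∃ g ∈ T, sInf S ≤ g
  smono : ∀ r ∈ N ∪ M, ∀ r' ∈ N ∪ M, r ≤ r' → s r ≤ s r'

section Mo

variable {e : L → C} {M : Set C} {Q : C → Set (Set C)} {rk : C → ℕ} {s : C → K}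

omit [Lattice L] in
theorem mo_eq (h : SysO e M Q rk) {j : C} (hj : j ∈ M) :
    mo s Q rk j = bsup (insert (s j) {k | ∃ V ∈ Q j, k = binf (mo s Q rk '' V)}) := by
  rw [mo]
  congr 2
  ext k
  constructor
  · rintro ⟨V, hV, rfl⟩
    refine ⟨V, hV, ?_⟩
    congr 1
    ext y
    constructor
    · rintro ⟨z, hz, _, rfl⟩
      exact ⟨z, hz, rfl⟩
    · rintro ⟨z, hz, rfl⟩
      exact ⟨z, hz, h.rank j hj V hV z hz, rfl⟩
  · rintro ⟨V, hV, rfl⟩
    refine ⟨V, hV, ?_⟩
    congr 1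
    ext y
    constructor
    · rintro ⟨z, hz, rfl⟩
      exact ⟨z, hz, h.rank j hj V hV z hz, rfl⟩
    · rintro ⟨z, hz, _, rfl⟩
      exact ⟨z, hz, rfl⟩

omit [Lattice L] in
theorem mo_fin (h : SysO e M Q rk) {j : C} (hj : j ∈ M) (g : C → K) :
    (insert (s j) {k : K | ∃ V ∈ Q j, k = binf (g '' V)}).Finite := by
  apply Set.Finite.insert
  have : {k : K | ∃ V ∈ Q j, k = binf (g '' V)} = (fun V => binf (g '' V)) '' (Q j) := by
    ext k
    constructor
    · rintro ⟨V, hV, rfl⟩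
      exact ⟨V, hV, rfl⟩
    · rintro ⟨V, hV, rfl⟩
      exact ⟨V, hV, rfl⟩
  rw [this]
  exact (h.Qfin j hj).image _

omit [Lattice L] in
theorem s_le_mo (h : SysO e M Q rk) {j : C} (hj : j ∈ M) : s j ≤ mo s Q rk j := by
  rw [mo_eq h hj]
  exact le_bsup (mo_fin h hj _) (Or.inl rfl)

omit [Lattice L] in
theorem meet_le_mo (h : SysO e M Q rk) {j : C} (hj : j ∈ M) {V : Set C} (hV : V ∈ Q j) :
    binf (mo s Q rk '' V) ≤ mo s Q rk j := by
  rw [mo_eq h hj]
  exact le_bsup (mo_fin h hj _) (Or.inr ⟨V, hV, rfl⟩)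

omit [Lattice L] in
theorem mo_le (h : SysO e M Q rk) {j : C} (hj : j ∈ M) {c : K} (h1 : s j ≤ c)
    (h2 : ∀ V ∈ Q j, binf (mo s Q rk '' V) ≤ c) : mo s Q rk j ≤ c := by
  rw [mo_eq h hj]
  apply bsup_le (mo_fin h hj _) ⟨_, Or.inl rfl⟩
  rintro x (rfl | ⟨V, hV, rfl⟩)
  · exact h1
  · exact h2 V hV

omit [Lattice L] in
/-- Upper compatibility of `mo`. -/
theorem mo_compat (h : SysO e M Q rk) {M' : Set C} {w : C → K} (hO : OCompat e M' Q rk w)
    (hs : ∀ j ∈ M, ∀ q ∈ M', j ≤ q → s j ≤ w q) :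
    ∀ j ∈ M, ∀ q ∈ M', j ≤ q → mo s Q rk j ≤ w q := by
  have key : ∀ n, ∀ j ∈ M, rk j < n → ∀ q ∈ M', j ≤ q → mo s Q rk j ≤ w q := by
    intro n
    induction n with
    | zero => intro j _ hn; omega
    | succ n ih =>
      intro j hj hn q hq hjq
      apply mo_le h hj (hs j hj q hq hjq)
      intro V hV
      obtain ⟨hVf, hVn, hVj, hVM⟩ := h.Qmem j hj V hV
      apply hO.meet_le hVf hVn (fun y hy => h.op y (hVM hy)) _ hq (hVj.trans hjq)
      intro z hz q' hq' hzq'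
      have := h.rank j hj V hV z hz
      exact ih z (hVM hz) (by omega) q' hq' hzq'
  intro j hj
  exact key _ j hj (Nat.lt_succ_self _)

omit [Lattice L] in
theorem mo_OCompat (h : SysO e M Q rk) : OCompat e M Q rk (mo s Q rk) :=
  ⟨h, fun _ hx _ hV => meet_le_mo h hx hV⟩

omit [Lattice L] in
theorem mo_mono (h : SysO e M Q rk) (hs : ∀ r ∈ M, ∀ r' ∈ M, r ≤ r' → s r ≤ s r') :
    ∀ j ∈ M, ∀ q ∈ M, j ≤ q → mo s Q rk j ≤ mo s Q rk q :=
  mo_compat h (mo_OCompat h) (fun j hj q hq hjq => (hs j hj q hq hjq).trans (s_le_mo h hq))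

end Mo

section Po

variable {e : L → C} {N : Set C} {J : C → Set (Set C)} {rk : C → ℕ} {m : C → K}

omit [Lattice L] in
theorem po_eq (h : Sys e N J rk) {j : C} (hj : j ∈ N) :
    po m J rk j = binf (insert (m j) {k | ∃ V ∈ J j, k = bsup (po m J rk '' V)}) := by
  rw [po]
  congr 2
  ext k
  constructor
  · rintro ⟨V, hV, rfl⟩
    refine ⟨V, hV, ?_⟩
    congr 1
    ext y
    constructor
    · rintro ⟨z, hz, _, rfl⟩
      exact ⟨z, hz, rfl⟩
    · rintro ⟨z, hz, rfl⟩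
      exact ⟨z, hz, h.rank j hj V hV z hz, rfl⟩
  · rintro ⟨V, hV, rfl⟩
    refine ⟨V, hV, ?_⟩
    congr 1
    ext y
    constructor
    · rintro ⟨z, hz, rfl⟩
      exact ⟨z, hz, h.rank j hj V hV z hz, rfl⟩
    · rintro ⟨z, hz, _, rfl⟩
      exact ⟨z, hz, rfl⟩

omit [Lattice L] in
theorem po_fin (h : Sys e N J rk) {j : C} (hj : j ∈ N) (g : C → K) :
    (insert (m j) {k : K | ∃ V ∈ J j, k = bsup (g '' V)}).Finite := by
  apply Set.Finite.insert
  have : {k : K | ∃ V ∈ J j, k = bsup (g '' V)} = (fun V => bsup (g '' V)) '' (J j) := by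
    ext k
    constructor
    · rintro ⟨V, hV, rfl⟩
      exact ⟨V, hV, rfl⟩
    · rintro ⟨V, hV, rfl⟩
      exact ⟨V, hV, rfl⟩
  rw [this]
  exact (h.Jfin j hj).image _

omit [Lattice L] in
theorem po_le_m (h : Sys e N J rk) {j : C} (hj : j ∈ N) : po m J rk j ≤ m j := by
  rw [po_eq h hj]
  exact binf_le (po_fin h hj _) (Or.inl rfl)

omit [Lattice L] in
theorem po_le_join (h : Sys e N J rk) {j : C} (hj : j ∈ N) {V : Set C} (hV : V ∈ J j) :
    po m J rk j ≤ bsup (po m J rk '' V) := by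
  rw [po_eq h hj]
  exact binf_le (po_fin h hj _) (Or.inr ⟨V, hV, rfl⟩)

omit [Lattice L] in
theorem le_po (h : Sys e N J rk) {j : C} (hj : j ∈ N) {c : K} (h1 : c ≤ m j)
    (h2 : ∀ V ∈ J j, c ≤ bsup (po m J rk '' V)) : c ≤ po m J rk j := by
  rw [po_eq h hj]
  apply le_binf (po_fin h hj _) ⟨_, Or.inl rfl⟩
  rintro x (rfl | ⟨V, hV, rfl⟩)
  · exact h1
  · exact h2 V hV

omit [Lattice L] in
/-- Lower compatibility of `po`. -/
theorem po_compat (h : Sys e N J rk) {N' : Set C} {w : C → K} (hO : CCompat e N' J rk w)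
    (hs : ∀ j ∈ N, ∀ q ∈ N', q ≤ j → w q ≤ m j) :
    ∀ j ∈ N, ∀ q ∈ N', q ≤ j → w q ≤ po m J rk j := by
  have key : ∀ n, ∀ j ∈ N, rk j < n → ∀ q ∈ N', q ≤ j → w q ≤ po m J rk j := by
    intro n
    induction n with
    | zero => intro j _ hn; omega
    | succ n ih =>
      intro j hj hn q hq hjq
      apply le_po h hj (hs j hj q hq hjq)
      intro V hV
      obtain ⟨hVf, hVn, hVj, hVM⟩ := h.Jmem j hj V hV
      apply hO.le_join hVf hVn (fun y hy => h.cl y (hVM hy)) _ hq (hjq.trans hVj)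
      intro z hz q' hq' hzq'
      have := h.rank j hj V hV z hz
      exact ih z (hVM hz) (by omega) q' hq' hzq'
  intro j hj
  exact key _ j hj (Nat.lt_succ_self _)

omit [Lattice L] in
theorem po_CCompat (h : Sys e N J rk) : CCompat e N J rk (po m J rk) :=
  ⟨h, fun _ hx _ hV => po_le_join h hx hV⟩

omit [Lattice L] in
theorem po_mono (h : Sys e N J rk) (hs : ∀ r ∈ N, ∀ r' ∈ N, r ≤ r' → m r ≤ m r') :
    ∀ j ∈ N, ∀ q ∈ N, j ≤ q → po m J rk j ≤ po m J rk q := by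
  intro j hj q hq hjq
  exact po_compat h (po_CCompat h)
    (fun j hj q hq hjq => (po_le_m h hq).trans (hs q hq j hj hjq)) q hq j hj hjq

end Po

/-- All the sets `V` in `J x`, for `x ∈ N`. -/
def allSets (N : Set C) (J : C → Set (Set C)) : Set (Set C) := ⋃ x ∈ N, J x

/-- The value after meets. -/
noncomputable def mm (s : C → K) (M : Set C) (Q : C → Set (Set C)) (rk : C → ℕ) (r : C) : K :=
  bsup (insert (s r) ((fun V => binf (mo s Q rk '' V)) '' {V ∈ allSets M Q | sInf V ≤ r}))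

/-- The value after joins. -/
noncomputable def pp (m : C → K) (N : Set C) (J : C → Set (Set C)) (rk : C → ℕ) (r : C) : K :=
  binf (insert (m r) ((fun V => bsup (po m J rk '' V)) '' {V ∈ allSets N J | r ≤ sSup V}))

section MM

variable {e : L → C} {M : Set C} {Q : C → Set (Set C)} {rk : C → ℕ} {s : C → K}

omit [CompleteLattice C] in
theorem allSets_finite {N : Set C} {J : C → Set (Set C)} (hN : N.Finite)
    (hJ : ∀ x ∈ N, (J x).Finite) : (allSets N J).Finite := hN.biUnion hJ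

omit [Lattice L] in
theorem mm_fin (h : SysO e M Q rk) (r : C) :
    (insert (s r) ((fun V => binf (mo s Q rk '' V)) '' {V ∈ allSets M Q | sInf V ≤ r})).Finite :=
  (((allSets_finite h.fin h.Qfin).subset (Set.sep_subset _ _)).image _).insert _

omit [Lattice L] in
theorem allSets_spec (h : SysO e M Q rk) {V : Set C} (hV : V ∈ allSets M Q) :
    V.Finite ∧ V.Nonempty ∧ V ⊆ M := by
  simp only [allSets, Set.mem_iUnion] at hV
  obtain ⟨x, hx, hV⟩ := hV
  have := h.Qmem x hx V hV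
  exact ⟨this.1, this.2.1, this.2.2.2⟩

omit [Lattice L] in
theorem s_le_mm (h : SysO e M Q rk) (r : C) : s r ≤ mm s M Q rk r :=
  le_bsup (mm_fin h r) (Or.inl rfl)

omit [Lattice L] in
theorem meet_le_mm (h : SysO e M Q rk) {r : C} {V : Set C} (hV : V ∈ allSets M Q)
    (hle : sInf V ≤ r) : binf (mo s Q rk '' V) ≤ mm s M Q rk r :=
  le_bsup (mm_fin h r) (Or.inr ⟨V, ⟨hV, hle⟩, rfl⟩)

omit [Lattice L] in
theorem mm_le (h : SysO e M Q rk) {r : C} {c : K} (h1 : s r ≤ c)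
    (h2 : ∀ V ∈ allSets M Q, sInf V ≤ r → binf (mo s Q rk '' V) ≤ c) : mm s M Q rk r ≤ c := by
  apply bsup_le (mm_fin h r) ⟨_, Or.inl rfl⟩
  rintro _ (rfl | ⟨V, ⟨hV, hVr⟩, rfl⟩)
  · exact h1
  · exact h2 V hV hVr

omit [Lattice L] in
theorem mm_mono (h : SysO e M Q rk) {r r' : C} (hr : r ≤ r') (hs : s r ≤ s r') :
    mm s M Q rk r ≤ mm s M Q rk r' :=
  mm_le h (hs.trans (s_le_mm h r')) (fun _ hV hle => meet_le_mm h hV (hle.trans hr))

omit [Lattice L] in
/-- Upper compatibility of `mm`. -/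
theorem mm_compat (h : SysO e M Q rk) {M' : Set C} {w : C → K} (hO : OCompat e M' Q rk w)
    (hs : ∀ j ∈ M, ∀ q ∈ M', j ≤ q → s j ≤ w q) {r q : C} (hq : q ∈ M') (hrq : r ≤ q)
    (hr : s r ≤ w q) : mm s M Q rk r ≤ w q := by
  apply mm_le h hr
  intro V hV hle
  obtain ⟨hVf, hVn, hVM⟩ := allSets_spec h hV
  exact hO.meet_le hVf hVn (fun y hy => h.op y (hVM hy))
    (fun j hj q' hq' hjq' => mo_compat h hO hs j (hVM hj) q' hq' hjq') hq (hle.trans hrq)

omit [Lattice L] in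
theorem mm_le_mo (h : SysO e M Q rk) (hs : ∀ r ∈ M, ∀ r' ∈ M, r ≤ r' → s r ≤ s r') {j : C}
    (hj : j ∈ M) : mm s M Q rk j ≤ mo s Q rk j :=
  mm_compat h (mo_OCompat h)
    (fun j hj q hq hjq => (hs j hj q hq hjq).trans (s_le_mo h hq)) hj le_rfl (s_le_mo h hj)

omit [Lattice L] in
theorem mo_le_mm (h : SysO e M Q rk) {j : C} (hj : j ∈ M) : mo s Q rk j ≤ mm s M Q rk j := by
  apply mo_le h hj (s_le_mm h j)
  intro V hV
  apply meet_le_mm h
  · simp only [allSets, Set.mem_iUnion]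
    exact ⟨j, hj, hV⟩
  · exact (h.Qmem j hj V hV).2.2.1

end MM

section PP

variable {e : L → C} {N : Set C} {J : C → Set (Set C)} {rk : C → ℕ} {m : C → K}

omit [Lattice L] in
theorem pp_fin (h : Sys e N J rk) (r : C) :
    (insert (m r) ((fun V => bsup (po m J rk '' V)) '' {V ∈ allSets N J | r ≤ sSup V})).Finite :=
  (((allSets_finite h.fin h.Jfin).subset (Set.sep_subset _ _)).image _).insert _

omit [Lattice L] in
theorem allSets_spec' (h : Sys e N J rk) {V : Set C} (hV : V ∈ allSets N J) :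
    V.Finite ∧ V.Nonempty ∧ V ⊆ N := by
  simp only [allSets, Set.mem_iUnion] at hV
  obtain ⟨x, hx, hV⟩ := hV
  have := h.Jmem x hx V hV
  exact ⟨this.1, this.2.1, this.2.2.2⟩

omit [Lattice L] in
theorem pp_le_m (h : Sys e N J rk) (r : C) : pp m N J rk r ≤ m r :=
  binf_le (pp_fin h r) (Or.inl rfl)

omit [Lattice L] in
theorem pp_le_join (h : Sys e N J rk) {r : C} {V : Set C} (hV : V ∈ allSets N J)
    (hle : r ≤ sSup V) : pp m N J rk r ≤ bsup (po m J rk '' V) :=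
  binf_le (pp_fin h r) (Or.inr ⟨V, ⟨hV, hle⟩, rfl⟩)

omit [Lattice L] in
theorem le_pp (h : Sys e N J rk) {r : C} {c : K} (h1 : c ≤ m r)
    (h2 : ∀ V ∈ allSets N J, r ≤ sSup V → c ≤ bsup (po m J rk '' V)) : c ≤ pp m N J rk r := by
  apply le_binf (pp_fin h r) ⟨_, Or.inl rfl⟩
  rintro _ (rfl | ⟨V, ⟨hV, hVr⟩, rfl⟩)
  · exact h1
  · exact h2 V hV hVr

omit [Lattice L] in
theorem pp_mono (h : Sys e N J rk) {r r' : C} (hr : r ≤ r') (hm : m r ≤ m r') :
    pp m N J rk r ≤ pp m N J rk r' :=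
  le_pp h ((pp_le_m h r).trans hm) (fun _ hV hle => pp_le_join h hV (hr.trans hle))

omit [Lattice L] in
/-- Lower compatibility of `pp`. -/
theorem pp_compat (h : Sys e N J rk) {N' : Set C} {w : C → K} (hO : CCompat e N' J rk w)
    (hs : ∀ j ∈ N, ∀ q ∈ N', q ≤ j → w q ≤ m j) {r q : C} (hq : q ∈ N') (hrq : q ≤ r)
    (hr : w q ≤ m r) : w q ≤ pp m N J rk r := by
  apply le_pp h hr
  intro V hV hle
  obtain ⟨hVf, hVn, hVM⟩ := allSets_spec' h hV
  exact hO.le_join hVf hVn (fun y hy => h.cl y (hVM hy))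
    (fun j hj q' hq' hjq' => po_compat h hO hs j (hVM hj) q' hq' hjq') hq (hrq.trans hle)

omit [Lattice L] in
theorem po_le_pp (h : Sys e N J rk) (hs : ∀ r ∈ N, ∀ r' ∈ N, r ≤ r' → m r ≤ m r') {j : C}
    (hj : j ∈ N) : po m J rk j ≤ pp m N J rk j :=
  pp_compat h (po_CCompat h)
    (fun j hj q hq hjq => (po_le_m h hq).trans (hs q hq j hj hjq)) hj le_rfl (po_le_m h hj)

omit [Lattice L] in
theorem pp_le_po (h : Sys e N J rk) {j : C} (hj : j ∈ N) : pp m N J rk j ≤ po m J rk j := by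
  apply le_po h hj (pp_le_m h j)
  intro V hV
  apply pp_le_join h
  · simp only [allSets, Set.mem_iUnion]
    exact ⟨j, hj, hV⟩
  · exact (h.Jmem j hj V hV).2.2.1

end PP

section Main

variable {e : L → C} {N M : Set C} {J Q : C → Set (Set C)} {rkJ rkQ : C → ℕ} {s : C → K}

/-- The final value of a stage. -/
noncomputable def fin (N M : Set C) (J Q : C → Set (Set C)) (rkJ rkQ : C → ℕ)
    (s : C → K) (r : C) : K := pp (mm s M Q rkQ) N J rkJ r

omit [Lattice L] in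
theorem StageHyp.mmono (h : StageHyp e N M J Q rkJ rkQ s) :
    ∀ r ∈ N ∪ M, ∀ r' ∈ N ∪ M, r ≤ r' → mm s M Q rkQ r ≤ mm s M Q rkQ r' :=
  fun r hr r' hr' hle => mm_mono h.sysM hle (h.smono r hr r' hr' hle)

omit [Lattice L] in
theorem StageHyp.fmono (h : StageHyp e N M J Q rkJ rkQ s) :
    ∀ r ∈ N ∪ M, ∀ r' ∈ N ∪ M, r ≤ r' →
      fin N M J Q rkJ rkQ s r ≤ fin N M J Q rkJ rkQ s r' :=
  fun r hr r' hr' hle => pp_mono h.sysN hle (h.mmono r hr r' hr' hle)

omit [Lattice L] in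
theorem StageHyp.upper (h : StageHyp e N M J Q rkJ rkQ s) {M' : Set C} {w : C → K}
    (hO : OCompat e M' Q rkQ w) (hs : ∀ r ∈ N ∪ M, ∀ q ∈ M', r ≤ q → s r ≤ w q) :
    ∀ r ∈ N ∪ M, ∀ q ∈ M', r ≤ q → fin N M J Q rkJ rkQ s r ≤ w q := by
  intro r hr q hq hrq
  exact (pp_le_m h.sysN r).trans
    (mm_compat h.sysM hO (fun j hj => hs j (Or.inr hj)) hq hrq (hs r hr q hq hrq))

omit [Lattice L] in
theorem StageHyp.lower (h : StageHyp e N M J Q rkJ rkQ s) {N' : Set C} {w : C → K}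
    (hO : CCompat e N' J rkJ w) (hs : ∀ r ∈ N ∪ M, ∀ q ∈ N', q ≤ r → w q ≤ s r) :
    ∀ r ∈ N ∪ M, ∀ q ∈ N', q ≤ r → w q ≤ fin N M J Q rkJ rkQ s r := by
  intro r hr q hq hrq
  exact pp_compat h.sysN hO
    (fun j hj q hq hqj => (hs j (Or.inl hj) q hq hqj).trans (s_le_mm h.sysM j)) hq hrq
    ((hs r hr q hq hrq).trans (s_le_mm h.sysM r))

omit [Lattice L] in
theorem StageHyp.ccompat (h : StageHyp e N M J Q rkJ rkQ s) :
    CCompat e N J rkJ (fin N M J Q rkJ rkQ s) := by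
  refine ⟨h.sysN, fun x hx V hV => ?_⟩
  obtain ⟨hVf, hVn, _, hVN⟩ := h.sysN.Jmem x hx V hV
  refine (pp_le_po h.sysN hx).trans ((po_le_join h.sysN hx hV).trans ?_)
  exact bsup_image_mono hVf hVn (fun z hz => po_le_pp h.sysN
    (fun r hr r' hr' => h.mmono r (Or.inl hr) r' (Or.inl hr')) (hVN hz))

omit [Lattice L] in
/-- The step using Whitman's condition. -/
theorem StageHyp.whitman (h : StageHyp e N M J Q rkJ rkQ s) {W : Set C}
    (hW : W ∈ allSets M Q) :
    ∀ g ∈ N, sInf W ≤ g →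
      binf (fin N M J Q rkJ rkQ s '' W) ≤ po (mm s M Q rkQ) J rkJ g := by
  obtain ⟨hWf, hWn, hWM⟩ := allSets_spec h.sysM hW
  have key : ∀ n, ∀ g ∈ N, rkJ g < n → sInf W ≤ g →
      binf (fin N M J Q rkJ rkQ s '' W) ≤ po (mm s M Q rkQ) J rkJ g := by
    intro n
    induction n with
    | zero => intro j _ hn; omega
    | succ n ih =>
      intro g hg hn hWg
      apply le_po h.sysN hg
      · refine le_trans ?_ (meet_le_mm h.sysM hW hWg)
        exact binf_image_mono hWf hWn (fun z hz => (pp_le_m h.sysN z).trans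
          (mm_le_mo h.sysM (fun r hr r' hr' => h.smono r (Or.inr hr) r' (Or.inr hr')) (hWM hz)))
      · intro V hV
        obtain ⟨hVf, hVn, hgV, hVN⟩ := h.sysN.Jmem g hg V hV
        rcases h.K3 W V hWf hWn hWM hVf hVn hVN (hWg.trans hgV) with ⟨j, hj, hjV⟩ | ⟨z, hz, hWz⟩
        · refine (binf_le (hWf.image _) ⟨j, hj, rfl⟩).trans ?_
          apply pp_le_join h.sysN _ hjV
          simp only [allSets, Set.mem_iUnion]
          exact ⟨g, hg, hV⟩
        · have := h.sysN.rank g hg V hV z hz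
          exact (ih z (hVN hz) (by omega) hWz).trans (le_bsup (hVf.image _) ⟨z, hz, rfl⟩)
  intro g hg
  exact key _ g hg (Nat.lt_succ_self _)

omit [Lattice L] in
theorem StageHyp.ocompat (h : StageHyp e N M J Q rkJ rkQ s) :
    OCompat e M Q rkQ (fin N M J Q rkJ rkQ s) := by
  refine ⟨h.sysM, fun x hx W hW => ?_⟩
  have hW' : W ∈ allSets M Q := by
    simp only [allSets, Set.mem_iUnion]
    exact ⟨x, hx, hW⟩
  obtain ⟨hWf, hWn, hWx, hWM⟩ := h.sysM.Qmem x hx W hW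
  apply le_pp h.sysN
  · refine le_trans ?_ (meet_le_mm h.sysM hW' hWx)
    exact binf_image_mono hWf hWn (fun z hz => (pp_le_m h.sysN z).trans
      (mm_le_mo h.sysM (fun r hr r' hr' => h.smono r (Or.inr hr) r' (Or.inr hr')) (hWM hz)))
  · intro V hV hxV
    obtain ⟨hVf, hVn, hVN⟩ := allSets_spec' h.sysN hV
    rcases h.K3 W V hWf hWn hWM hVf hVn hVN (hWx.trans hxV) with ⟨j, hj, hjV⟩ | ⟨z, hz, hWz⟩
    · exact (binf_le (hWf.image _) ⟨j, hj, rfl⟩).trans (pp_le_join h.sysN hV hjV)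
    · exact (h.whitman hW' z (hVN hz) hWz).trans (le_bsup (hVf.image _) ⟨z, hz, rfl⟩)

end Main

section Retract

variable {e : L → C} {N M : Set C} {J Q : C → Set (Set C)} {rkJ rkQ : C → ℕ} {s : C → K}
  (f : LatticeHom K C)

omit [Lattice L] in
theorem map_mo (h : SysO e M Q rkQ) (hs : ∀ r ∈ M, f (s r) = r) :
    ∀ r ∈ M, f (mo s Q rkQ r) = r := by
  have key : ∀ n, ∀ g ∈ M, rkQ g < n → f (mo s Q rkQ g) = g := by
    intro n
    induction n with
    | zero => intro j _ hn; omega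
    | succ n ih =>
      intro g hg hn
      apply le_antisymm
      · rw [mo_eq h hg]
        apply map_bsup_le f (mo_fin h hg _) ⟨_, Or.inl rfl⟩
        rintro _ (rfl | ⟨V, hV, rfl⟩)
        · exact (hs g hg).le
        · obtain ⟨hVf, hVn, hVg, hVM⟩ := h.Qmem g hg V hV
          refine le_trans ?_ hVg
          apply le_sInf
          intro z hz
          have hr := h.rank g hg V hV z hz
          have := ih z (hVM hz) (by omega)
          rw [← this]
          exact OrderHomClass.mono f (binf_le (hVf.image _) ⟨z, hz, rfl⟩)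
      · have := OrderHomClass.mono f (s_le_mo (s := s) h hg)
        rwa [hs g hg] at this
  intro g hg
  exact key _ g hg (Nat.lt_succ_self _)

omit [Lattice L] in
theorem map_mm (h : SysO e M Q rkQ) (hs : ∀ r ∈ M, f (s r) = r) {r : C} (hr : f (s r) = r) :
    f (mm s M Q rkQ r) = r := by
  apply le_antisymm
  · apply map_bsup_le f (mm_fin h r) ⟨_, Or.inl rfl⟩
    rintro _ (rfl | ⟨V, ⟨hV, hVr⟩, rfl⟩)
    · exact hr.le
    · obtain ⟨hVf, hVn, hVM⟩ := allSets_spec h hV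
      refine le_trans ?_ hVr
      apply le_sInf
      intro z hz
      have := map_mo f h hs z (hVM hz)
      refine le_trans ?_ this.le
      exact OrderHomClass.mono f (binf_le (hVf.image _) ⟨z, hz, rfl⟩)
  · have := OrderHomClass.mono f (s_le_mm (s := s) h r)
    rwa [hr] at this

omit [Lattice L] in
theorem map_po {m : C → K} (h : Sys e N J rkJ) (hs : ∀ r ∈ N, f (m r) = r) :
    ∀ r ∈ N, f (po m J rkJ r) = r := by
  have key : ∀ n, ∀ g ∈ N, rkJ g < n → f (po m J rkJ g) = g := by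
    intro n
    induction n with
    | zero => intro j _ hn; omega
    | succ n ih =>
      intro g hg hn
      apply le_antisymm
      · have := OrderHomClass.mono f (po_le_m (m := m) h hg)
        rwa [hs g hg] at this
      · rw [po_eq h hg]
        apply le_map_binf f (po_fin h hg _) ⟨_, Or.inl rfl⟩
        rintro _ (rfl | ⟨V, hV, rfl⟩)
        · exact (hs g hg).ge
        · obtain ⟨hVf, hVn, hVg, hVM⟩ := h.Jmem g hg V hV
          refine le_trans hVg ?_
          apply sSup_le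
          intro z hz
          have hr := h.rank g hg V hV z hz
          have := ih z (hVM hz) (by omega)
          nth_rewrite 1 [← this]
          exact OrderHomClass.mono f (le_bsup (hVf.image _) ⟨z, hz, rfl⟩)
  intro g hg
  exact key _ g hg (Nat.lt_succ_self _)

omit [Lattice L] in
theorem map_pp {m : C → K} (h : Sys e N J rkJ) (hs : ∀ r ∈ N, f (m r) = r) {r : C}
    (hr : f (m r) = r) : f (pp m N J rkJ r) = r := by
  apply le_antisymm
  · have := OrderHomClass.mono f (pp_le_m (m := m) h r)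
    rwa [hr] at this
  · apply le_map_binf f (pp_fin h r) ⟨_, Or.inl rfl⟩
    rintro _ (rfl | ⟨V, ⟨hV, hVr⟩, rfl⟩)
    · exact hr.ge
    · obtain ⟨hVf, hVn, hVM⟩ := allSets_spec' h hV
      refine le_trans hVr ?_
      apply sSup_le
      intro z hz
      have := map_po f h hs z (hVM hz)
      refine this.ge.trans ?_
      exact OrderHomClass.mono f (le_bsup (hVf.image _) ⟨z, hz, rfl⟩)

omit [Lattice L] in
theorem StageHyp.map_fin (h : StageHyp e N M J Q rkJ rkQ s)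
    (hs : ∀ r ∈ N ∪ M, f (s r) = r) : ∀ r ∈ N ∪ M, f (fin N M J Q rkJ rkQ s r) = r := by
  intro r hr
  have h1 : ∀ r ∈ N ∪ M, f (mm s M Q rkQ r) = r := fun r hr =>
    map_mm f h.sysM (fun r hr => hs r (Or.inr hr)) (hs r hr)
  exact map_pp f h.sysN (fun r hr => h1 r (Or.inl hr)) (h1 r hr)

end Retract

end Pool.Agent.H48.FreeSub
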