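import Pool.Agent.H48.FreeSub.Stage
import Pool.Agent.H48.FreeSub.FreeLat

/-!
# Sufficiency: the recursion along an enumeration of a countable lattice
-/

namespace Pool.Agent.H48.FreeSub

universe u v w

/-- The data of the construction. -/
structure Ctx (L : Type u) (C : Type v) (K : Type w) [Lattice L] [CompleteLattice C]
    [Lattice K] where
  e : L → C
  N : L → Set C
  M : L → Set C
  J : C → Set (Set C)
  Q : C → Set (Set C)
  rkJ : C → ℕ
  rkQ : C → ℕ
  τ : L → ℕ
  x : L → C → K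
  he : GoodExt e
  hW : WhitmanW L
  heN : ∀ b, e b ∈ N b
  hN : ∀ b, Sys e (N b) J rkJ
  heM : ∀ b, e b ∈ M b
  hM : ∀ b, SysO e (M b) Q rkQ
  hτ : Function.Injective τ

namespace Ctx

variable {L : Type u} {C : Type v} {K : Type w} [Lattice L] [CompleteLattice C] [Lattice K]
  [Nonempty K] (D : Ctx L C K)

/-- Lower bounds imposed at stage `b`. -/
def lowSet (b : L) (w : L → C → K) (r : C) : Set K :=
  (fun r' => D.x b r') '' {r' ∈ D.N b ∪ D.M b | r' ≤ r} ∪
    (fun p : L × C => w p.1 p.2) '' {p | D.τ p.1 < D.τ b ∧ p.2 ∈ D.N p.1 ∧ p.2 ≤ r}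

/-- Upper bounds imposed at stage `b`. -/
def upSet (b : L) (w : L → C → K) (r : C) : Set K :=
  (fun p : L × C => w p.1 p.2) '' {p | D.τ p.1 < D.τ b ∧ p.2 ∈ D.M p.1 ∧ r ≤ p.2}

/-- The starting value at stage `b`. -/
noncomputable def ss (b : L) (w : L → C → K) (r : C) : K :=
  binf (insert (bsup (D.lowSet b w r)) (D.upSet b w r))

/-- The value function. -/
noncomputable def val (b : L) : C → K :=
  fin (D.N b) (D.M b) D.J D.Q D.rkJ D.rkQ
    (D.ss b (fun c => if _ : D.τ c < D.τ b then val c else fun _ => Classical.arbitrary K))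
termination_by D.τ b

omit [Nonempty K] in
theorem lowSet_congr (b : L) {w w' : L → C → K} (h : ∀ c, D.τ c < D.τ b → w c = w' c) :
    D.lowSet b w = D.lowSet b w' := by
  funext r
  rw [lowSet, lowSet]
  congr 1
  apply Set.image_congr
  rintro ⟨c, q⟩ ⟨hc, _⟩
  exact congrFun (h c hc) q

omit [Nonempty K] in
theorem upSet_congr (b : L) {w w' : L → C → K} (h : ∀ c, D.τ c < D.τ b → w c = w' c) :
    D.upSet b w = D.upSet b w' := by
  funext r
  rw [upSet, upSet]
  apply Set.image_congr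
  rintro ⟨c, q⟩ ⟨hc, _⟩
  exact congrFun (h c hc) q

theorem val_eq (b : L) : D.val b =
    fin (D.N b) (D.M b) D.J D.Q D.rkJ D.rkQ (D.ss b D.val) := by
  rw [val]
  congr 1
  funext r
  have h : ∀ c, D.τ c < D.τ b →
      (fun c => if _ : D.τ c < D.τ b then D.val c else fun _ => Classical.arbitrary K) c
        = D.val c := by
    intro c hc
    simp [hc]
  rw [ss, ss, D.lowSet_congr b h, D.upSet_congr b h]

theorem earlier_finite (b : L) : {c | D.τ c < D.τ b}.Finite :=
  (Set.finite_Iio (D.τ b)).preimage D.hτ.injOn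

theorem pairs_finite (b : L) (N : L → Set C) (hN : ∀ c, (N c).Finite) (P : L × C → Prop) :
    {p : L × C | D.τ p.1 < D.τ b ∧ p.2 ∈ N p.1 ∧ P p}.Finite := by
  apply Set.Finite.subset ((D.earlier_finite b).biUnion (t := fun c => {c} ×ˢ N c)
    (fun c _ => (Set.finite_singleton c).prod (hN c)))
  rintro ⟨c, q⟩ ⟨h1, h2, _⟩
  simp only [Set.mem_iUnion]
  exact ⟨c, h1, rfl, h2⟩

theorem lowSet_finite (b : L) (w : L → C → K) (r : C) : (D.lowSet b w r).Finite :=
  ((((D.hN b).fin.union (D.hM b).fin).subset (Set.sep_subset _ _)).image _).union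
    ((D.pairs_finite b D.N (fun c => (D.hN c).fin) _).image _)

theorem upSet_finite (b : L) (w : L → C → K) (r : C) : (D.upSet b w r).Finite :=
  (D.pairs_finite b D.M (fun c => (D.hM c).fin) _).image _

theorem x_mem_lowSet {b : L} {w : L → C → K} {r r' : C} (hr : r' ∈ D.N b ∪ D.M b)
    (hle : r' ≤ r) : D.x b r' ∈ D.lowSet b w r := Or.inl ⟨r', ⟨hr, hle⟩, rfl⟩

/-- The invariants at `b`. -/
structure Inv (b : L) : Prop where
  lower : ∀ c, D.τ c < D.τ b → ∀ r ∈ D.N b ∪ D.M b, ∀ q ∈ D.N c, q ≤ r → D.val c q ≤ D.val b r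
  upper : ∀ c, D.τ c < D.τ b → ∀ r ∈ D.N b ∪ D.M b, ∀ q ∈ D.M c, r ≤ q → D.val b r ≤ D.val c q
  mono : ∀ r ∈ D.N b ∪ D.M b, ∀ r' ∈ D.N b ∪ D.M b, r ≤ r' → D.val b r ≤ D.val b r'
  cc : CCompat D.e (D.N b) D.J D.rkJ (D.val b)
  oc : OCompat D.e (D.M b) D.Q D.rkQ (D.val b)

theorem Inv.pair {D : Ctx L C K} {a b : L} (ha : D.Inv a) (hb : D.Inv b) {q q' : C}
    (hq : q ∈ D.N a) (hq' : q' ∈ D.M b) (hle : q ≤ q') : D.val a q ≤ D.val b q' := by
  rcases lt_trichotomy (D.τ a) (D.τ b) with h | h | h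
  · exact hb.lower a h q' (Or.inr hq') q hq hle
  · have := D.hτ h
    subst this
    exact ha.mono q (Or.inl hq) q' (Or.inr hq') hle
  · exact ha.upper b h q (Or.inl hq) q' hq' hle

theorem ss_lower {b : L} (hI : ∀ c, D.τ c < D.τ b → D.Inv c) {c : L} (hc : D.τ c < D.τ b)
    {r q : C} (hq : q ∈ D.N c) (hle : q ≤ r) : D.val c q ≤ D.ss b D.val r := by
  apply le_binf ((D.upSet_finite b _ r).insert _) ⟨_, Or.inl rfl⟩
  rintro _ (rfl | ⟨⟨c', q'⟩, ⟨hc', hq', hle'⟩, rfl⟩)
  · exact le_bsup (D.lowSet_finite b _ r) (Or.inr ⟨(c, q), ⟨hc, hq, hle⟩, rfl⟩)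
  · exact (hI c hc).pair (hI c' hc') hq hq' (hle.trans hle')

theorem ss_upper {b : L} {c : L} (hc : D.τ c < D.τ b)
    {r q : C} (hq : q ∈ D.M c) (hle : r ≤ q) : D.ss b D.val r ≤ D.val c q :=
  binf_le ((D.upSet_finite b _ r).insert _) (Or.inr ⟨(c, q), ⟨hc, hq, hle⟩, rfl⟩)

theorem ss_mono (b : L) {r r' : C} (hr : r ∈ D.N b ∪ D.M b) (hle : r ≤ r') :
    D.ss b D.val r ≤ D.ss b D.val r' := by
  apply le_binf ((D.upSet_finite b _ r').insert _) ⟨_, Or.inl rfl⟩
  rintro _ (rfl | ⟨⟨c, q⟩, ⟨hc, hq, hle'⟩, rfl⟩)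
  · refine (binf_le ((D.upSet_finite b _ r).insert _) (Or.inl rfl)).trans ?_
    apply bsup_le (D.lowSet_finite b _ r) ⟨_, D.x_mem_lowSet hr le_rfl⟩
    rintro _ (⟨r'', ⟨h1, h2⟩, rfl⟩ | ⟨⟨c, q⟩, ⟨hc, hq, hle'⟩, rfl⟩)
    · exact le_bsup (D.lowSet_finite b _ r') (D.x_mem_lowSet h1 (h2.trans hle))
    · exact le_bsup (D.lowSet_finite b _ r') (Or.inr ⟨(c, q), ⟨hc, hq, hle'.trans hle⟩, rfl⟩)
  · exact D.ss_upper hc hq (hle.trans hle')

theorem stageHyp (b : L) : StageHyp D.e (D.N b) (D.M b) D.J D.Q D.rkJ D.rkQ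
    (D.ss b D.val) where
  sysN := D.hN b
  sysM := D.hM b
  K3 S T hSf hSn hS hTf hTn hT hle := whitman_ext D.he D.hW hSf hSn
    (fun x hx => (D.hM b).op x (hS hx)) hTf hTn (fun x hx => (D.hN b).cl x (hT hx)) hle
  smono r hr _ _ hle := D.ss_mono b hr hle

theorem inv (b : L) : D.Inv b := by
  have key : ∀ n, ∀ b, D.τ b < n → D.Inv b := by
    intro n
    induction n with
    | zero => intro b hn; omega
    | succ n ih =>
      intro b hn
      have hI : ∀ c, D.τ c < D.τ b → D.Inv c := fun c hc => ih c (by omega)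
      have hS := D.stageHyp b
      constructor
      · intro c hc r hr q hq hle
        rw [D.val_eq b]
        exact hS.lower (hI c hc).cc
          (fun r hr q hq hle => D.ss_lower hI hc hq hle) r hr q hq hle
      · intro c hc r hr q hq hle
        rw [D.val_eq b]
        exact hS.upper (hI c hc).oc
          (fun r hr q hq hle => D.ss_upper hc hq hle) r hr q hq hle
      · rw [D.val_eq b]
        exact hS.fmono
      · rw [D.val_eq b]
        exact hS.ccompat
      · rw [D.val_eq b]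
        exact hS.ocompat
  exact key _ b (Nat.lt_succ_self _)

/-- The embedding. -/
noncomputable def g (a : L) : K := D.val a (D.e a)

theorem val_le_val {a b : L} {q q' : C} (hq : q ∈ D.N a) (hq' : q' ∈ D.M b) (hle : q ≤ q') :
    D.val a q ≤ D.val b q' := (D.inv a).pair (D.inv b) hq hq' hle

theorem g_mono {a b : L} (h : a ≤ b) : D.g a ≤ D.g b :=
  D.val_le_val (D.heN a) (D.heM b) (D.he.mono h)

theorem g_sup (a b : L) : D.g (a ⊔ b) = D.g a ⊔ D.g b := by
  apply le_antisymm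
  · rcases (D.hN (a ⊔ b)).ref (D.e (a ⊔ b)) (D.heN _) {D.e a, D.e b} (by simp) (by simp)
      (by rintro y (rfl | rfl) <;> exact GoodExt.isCl_coe _)
      (by rw [sSup_pair, D.he.map_sup]) with ⟨y, hy, hle⟩ | ⟨V, hV, hVT⟩
    · rcases hy with rfl | rfl
      · exact le_sup_of_le_left (D.g_mono ((D.he.le_iff _ _).1 hle))
      · exact le_sup_of_le_right (D.g_mono ((D.he.le_iff _ _).1 hle))
    · refine ((D.inv (a ⊔ b)).cc.val _ (D.heN _) V hV).trans ?_
      obtain ⟨hVf, hVn, _, hVN⟩ := (D.hN (a ⊔ b)).Jmem _ (D.heN _) V hV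
      apply bsup_le (hVf.image _) (hVn.image _)
      rintro _ ⟨z, hz, rfl⟩
      obtain ⟨y, hy, hzy⟩ := hVT z hz
      rcases hy with rfl | rfl
      · exact le_sup_of_le_left (D.val_le_val (hVN hz) (D.heM _) hzy)
      · exact le_sup_of_le_right (D.val_le_val (hVN hz) (D.heM _) hzy)
  · exact sup_le (D.g_mono le_sup_left) (D.g_mono le_sup_right)

theorem g_inf (a b : L) : D.g (a ⊓ b) = D.g a ⊓ D.g b := by
  apply le_antisymm
  · exact le_inf (D.g_mono inf_le_left) (D.g_mono inf_le_right)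
  · rcases (D.hM (a ⊓ b)).ref (D.e (a ⊓ b)) (D.heM _) {D.e a, D.e b} (by simp) (by simp)
      (by rintro y (rfl | rfl) <;> exact GoodExt.isOp_coe _)
      (by rw [sInf_pair, D.he.map_inf]) with ⟨y, hy, hle⟩ | ⟨V, hV, hVT⟩
    · rcases hy with rfl | rfl
      · exact inf_le_of_left_le (D.g_mono ((D.he.le_iff _ _).1 hle))
      · exact inf_le_of_right_le (D.g_mono ((D.he.le_iff _ _).1 hle))
    · refine le_trans ?_ ((D.inv (a ⊓ b)).oc.val _ (D.heM _) V hV)
      obtain ⟨hVf, hVn, _, hVM⟩ := (D.hM (a ⊓ b)).Qmem _ (D.heM _) V hV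
      apply le_binf (hVf.image _) (hVn.image _)
      rintro _ ⟨z, hz, rfl⟩
      obtain ⟨y, hy, hzy⟩ := hVT z hz
      rcases hy with rfl | rfl
      · exact inf_le_of_left_le (D.val_le_val (D.heN _) (hVM hz) hzy)
      · exact inf_le_of_right_le (D.val_le_val (D.heN _) (hVM hz) hzy)

theorem map_val (f : LatticeHom K C) (hf : ∀ b r, f (D.x b r) = r) (b : L) :
    ∀ r ∈ D.N b ∪ D.M b, f (D.val b r) = r := by
  have key : ∀ n, ∀ b, D.τ b < n → ∀ r ∈ D.N b ∪ D.M b, f (D.val b r) = r := by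
    intro n
    induction n with
    | zero => intro b hn; omega
    | succ n ih =>
      intro b hn
      have hI : ∀ c, D.τ c < D.τ b → ∀ r ∈ D.N c ∪ D.M c, f (D.val c r) = r :=
        fun c hc => ih c (by omega)
      rw [D.val_eq b]
      apply (D.stageHyp b).map_fin f
      intro r hr
      have hlow : f (bsup (D.lowSet b D.val r)) = r := by
        apply le_antisymm
        · apply map_bsup_le f (D.lowSet_finite b _ r) ⟨_, D.x_mem_lowSet hr le_rfl⟩
          rintro _ (⟨r'', ⟨h1, h2⟩, rfl⟩ | ⟨⟨c, q⟩, ⟨hc, hq, hle'⟩, rfl⟩)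
          · simp only [hf]
            exact h2
          · exact (hI c hc q (Or.inl hq)).le.trans hle'
        · have := OrderHomClass.mono f
            (le_bsup (D.lowSet_finite b D.val r) (D.x_mem_lowSet hr le_rfl))
          rwa [hf] at this
      apply le_antisymm
      · have := OrderHomClass.mono f
          (binf_le ((D.upSet_finite b D.val r).insert (bsup (D.lowSet b D.val r))) (Or.inl rfl))
        rwa [hlow] at this
      · apply le_map_binf f ((D.upSet_finite b _ r).insert _) ⟨_, Or.inl rfl⟩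
        rintro _ (rfl | ⟨⟨c, q⟩, ⟨hc, hq, hle'⟩, rfl⟩)
        · exact hlow.ge
        · exact hle'.trans (hI c hc q (Or.inr hq)).ge
  exact key _ b (Nat.lt_succ_self _)

theorem g_injective (f : LatticeHom K C) (hf : ∀ b r, f (D.x b r) = r) :
    Function.Injective D.g := by
  intro a b hab
  have h1 : f (D.g a) = D.e a := D.map_val f hf a _ (Or.inl (D.heN a))
  have h2 : f (D.g b) = D.e b := D.map_val f hf b _ (Or.inl (D.heN b))
  have h3 : D.e a = D.e b := by rw [← h1, ← h2, hab]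
  exact le_antisymm ((D.he.le_iff a b).1 h3.le) ((D.he.le_iff b a).1 h3.ge)

end Ctx

/-- Sufficiency for countable lattices. -/
theorem sufficiency (L : Type u) [Lattice L] [Countable L] (hW : WhitmanW L)
    (h1 : PrincipalFiniteType L) (h2 : PrincipalFiniteType (Lᵒᵈ)) : EmbedsInFree L := by
  rw [embedsInFree_iff]
  rcases isEmpty_or_nonempty L with hL | hL
  · exact ⟨L, { toFun := fun a => hL.elim a
                map_sup' := fun a => hL.elim a
                map_inf' := fun a => hL.elim a }, fun a => hL.elim a⟩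
  obtain ⟨C, _, e, he⟩ := exists_goodExt L
  obtain ⟨J, rkJ, hJ⟩ := exists_sys he h1
  obtain ⟨Q, rkQ, hQ⟩ := exists_sysO he h2
  choose N heN hN using hJ
  choose M heM hM using hQ
  obtain ⟨τ, hτ⟩ := Countable.exists_injective_nat L
  haveI : Nonempty (FL (L × C)) := ⟨FL.gen (Classical.arbitrary L, ⊤)⟩
  let D : Ctx L C (FL (L × C)) :=
    { e := e, N := N, M := M, J := J, Q := Q, rkJ := rkJ, rkQ := rkQ, τ := τ
      x := fun b r => FL.gen (b, r)
      he := he, hW := hW, heN := heN, hN := hN, heM := heM, hM := hM, hτ := hτ }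
  let f : LatticeHom (FL (L × C)) C := FL.lift (fun p : L × C => p.2)
  exact ⟨L × C, { toFun := D.g, map_sup' := D.g_sup, map_inf' := D.g_inf },
    D.g_injective f (fun b r => rfl)⟩

end Pool.Agent.H48.FreeSub
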